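import Pool.Agent.K1H64.LH.Main

/-!
Constant holomorphic sectional curvature of the Levi-Civita connection: it suffices to find one
geodesic vector which commutes with its image under the complex structure.
-/

set_option autoImplicit false

open Module
open scoped ComplexConjugate InnerProductSpace

noncomputable section

namespace Pool.Agent.J6H15.LH

open Pool.Agent.K1H64.LH

universe u

section abs

variable {V : Type*} [NormedAddCommGroup V] [InnerProductSpace ℂ V]
variable {br D : V →ₗ[ℝ] V →ₗ[ℝ] V}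

/-- sectional curvature of a plane spanned by commuting vectors, one of which is a geodesic vector -/
theorem geod_curv (h : LCV br D) (hs : ∀ x, br x x = 0) {u w : V} (huw : br u w = 0)
    (hu : ∀ z, (⟪u, br u z⟫_ℂ).re = 0) :
    (⟪curvV br D u w w, u⟫_ℂ).re = ‖D u w‖ ^ 2 := by
  have hDuu : D u u = 0 := by
    refine re_zero fun z => ?_
    have h1 := h.met u u z
    have h2 := h.met z u u
    have h3 : D u z = D z u + br u z := by rw [← h.tor u z]; abel
    rw [h3, inner_add_right, Complex.add_re, hu z] at h1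
    have h4 := re_symm u (D z u)
    linarith
  have e1 : (⟪D u (D w w), u⟫_ℂ).re = 0 := by
    have := h.met u (D w w) u
    rw [hDuu, inner_zero_right, Complex.zero_re, add_zero] at this
    exact this
  have e2 : (⟪D w (D u w), u⟫_ℂ).re = - (⟪D u w, D w u⟫_ℂ).re := by
    have := h.met w (D u w) u
    linarith
  have e4 : D w u = D u w := by
    have h5 := h.tor u w
    rw [huw, sub_eq_zero] at h5
    exact h5.symm
  rw [curvV, huw, map_zero, LinearMap.zero_apply, sub_zero, inner_sub_left, Complex.sub_re, e1, e2,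
    e4, inner_self_sq, Complex.ofReal_re]
  ring

variable [FiniteDimensional ℂ V]

/-- in the constant case the Levi-Civita connection is flat if the constant is not negative -/
theorem q2_of_nonneg [Nontrivial V] (G : Brk br) {D' : V →ₗ[ℝ] V →ₗ[ℝ] V} (hD : LCV br D')
    (htr : ∀ x, LinearMap.trace ℝ V (br x) = 0)
    (hric : ∀ x y, (LinearMap.trace ℂ V (G.geo.P (br x y))).im = 0) {a : ℝ} (ha : 0 ≤ a)
    (hH : ∀ x, (⟪curvV br D' x (Complex.I • x) (Complex.I • x), x⟫_ℂ).re = a * (‖x‖ ^ 2) ^ 2) :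
    a = 0 ∧ (∀ x y z, curvV br D' x y z = 0) ∧
      (∀ x y, D' x (Complex.I • y) = Complex.I • D' x y) := by
  have hA := G.geo.alg htr hric
  have hne : Nonempty (Fin (Module.finrank ℂ V)) := ⟨⟨0, Module.finrank_pos⟩⟩
  have hD2 : D' = lcMap G.D (Tor G.geo.P G.geo.c) := by
    ext x y
    exact lc_unique hD G.geo.lc x y
  have hF : ∀ x, FF G.geo.P (Tor G.geo.P G.geo.c) x x x x
      = (a : ℂ) * ((‖x‖ ^ 2 : ℝ) : ℂ) ^ 2 := by
    intro x
    rw [← G.geo.hsc_lc x, ← hD2, hH x]
    push_cast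
    ring
  obtain ⟨ha0, hT⟩ := riem_zero (stdOrthonormalBasis ℂ V) hA ha hF
  have hQ : ∀ x, QQ G.geo.P x x x x = 0 := by
    intro x
    have h1 := hF x
    rw [hT, ha0, FF] at h1
    have h2 : adj (0 : V →ₗ[ℂ] V →ₗ[ℂ] V) x x = 0 := by simp [adj]
    rw [h2, inner_zero_left, Complex.ofReal_zero, zero_mul, sub_zero] at h1
    exact (mul_eq_zero.mp h1).resolve_left two_ne_zero
  have hR := RR_zero_of_kaehler hA hT hQ
  have hDD : ∀ x y, D' x y = G.D x y := by
    intro x y
    rw [hD2, lcMap_apply, hT]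
    have : KT (0 : V →ₗ[ℂ] V →ₗ[ℂ] V) x y = 0 := by simp [KT, adj]
    rw [this, add_zero]
  have hDe : D' = G.D := by ext x y; exact hDD x y
  refine ⟨ha0, fun x y z => ?_, fun x y => ?_⟩
  · rw [hDe, G.geo.curv_eq, hR, hR, sub_zero]
  · rw [hDe, G.geo.cplx]

end abs

section fin

variable {g : Type u} [LieRing g] [LieAlgebra ℝ g] {J : g →ₗ[ℝ] g} {B : g →ₗ[ℝ] g →ₗ[ℝ] ℝ}
variable [FiniteDimensional ℝ g]

/-- **Reduction of Q2.** The Chern-Ricci form vanishes and there is a geodesic vector `u` which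
commutes with `J u`. -/
theorem riem_of_geod (H : LieHermitian J B) (hu : Unimodular g)
    (hr : RicV H (brk H).geo)
    {D : g →ₗ[ℝ] g →ₗ[ℝ] g} (hD : IsLeviCivita B D) {u : g} (hu0 : u ≠ 0)
    (huJ : ⁅u, J u⁆ = 0) (hug : ∀ z, B u ⁅u, z⁆ = 0) {c : ℝ} (hc : ConstantHSC J B D c) :
    c = 0 ∧ Flat D ∧ ∀ x y, D x (J y) = J (D x y) := by
  have hu0' : phi H u ≠ 0 := by
    intro h
    exact hu0 ((LinearEquiv.map_eq_zero_iff _).mp h)
  have hn : Nontrivial (VV H) := ⟨phi H u, 0, hu0'⟩
  have h1 := hsc_phi H D hc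
  have ha : 0 ≤ c := by
    have h2 := geod_curv (lcv H hD) (brk H).skew (u := phi H u) (w := Complex.I • phi H u)
      (by rw [I_phi, mbr_phi, huJ, map_zero])
      (by
        intro z
        obtain ⟨z, rfl⟩ := (phi H).surjective z
        rw [mbr_phi, re_phi, hug])
    rw [h1] at h2
    have h3 : 0 < ‖phi H u‖ := norm_pos_iff.mpr hu0'
    by_contra hlt
    push Not at hlt
    have h4 : c * (‖phi H u‖ ^ 2) ^ 2 < 0 := mul_neg_of_neg_of_pos hlt (by positivity)
    have := sq_nonneg ‖(conj2 (phi H) D) (phi H u) (Complex.I • phi H u)‖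
    linarith
  obtain ⟨h2, h3, h4⟩ := q2_of_nonneg (brk H) (lcv H hD) (uni_phi H hu) hr ha h1
  refine ⟨h2, fun x y z => ?_, fun x y => ?_⟩
  · have h7 := h3 (phi H x) (phi H y) (phi H z)
    rw [curv_phi] at h7
    exact (LinearEquiv.map_eq_zero_iff _).mp h7
  · apply (phi H).injective
    have h7 := h4 (phi H x) (phi H y)
    rw [I_phi, conj2_phi, conj2_phi, I_phi] at h7
    exact h7

end fin

end Pool.Agent.J6H15.LH
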