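import Pool.Agent.J6H15.LH.Neg

/-!
Constant Chern holomorphic sectional curvature on 2-step solvable Lie algebras.
-/

set_option autoImplicit false
set_option linter.unusedSimpArgs false

open Module
open scoped ComplexConjugate InnerProductSpace

noncomputable section

namespace Pool.Agent.J6H15.LH

open Pool.Agent.K1H64.LH

universe u

variable {g : Type u} [LieRing g] [LieAlgebra ℝ g]

/-- the span of the brackets -/
def brs (g : Type u) [LieRing g] [LieAlgebra ℝ g] : Submodule ℝ g :=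
  Submodule.span ℝ {v : g | ∃ a b : g, v = ⁅a, b⁆}

lemma brs_lie (h2 : ∀ x y z w : g, ⁅⁅x, y⁆, ⁅z, w⁆⁆ = 0) {x y : g} (hx : x ∈ brs g)
    (hy : y ∈ brs g) : ⁅x, y⁆ = 0 := by
  have h1 : ∀ a c : g, ∀ y ∈ brs g, ⁅⁅a, c⁆, y⁆ = 0 := by
    intro a c y hy
    induction hy using Submodule.span_induction with
    | zero => exact lie_zero _
    | add u v _ _ hu hv => rw [lie_add, hu, hv, add_zero]
    | smul r u _ hu => rw [lie_smul, hu, smul_zero]
    | mem v hv =>
      obtain ⟨a', c', rfl⟩ := hv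
      exact h2 _ _ _ _
  induction hx using Submodule.span_induction with
  | zero => exact zero_lie _
  | add u v _ _ hu hv => rw [add_lie, hu, hv, add_zero]
  | smul r u _ hu => rw [smul_lie, hu, smul_zero]
  | mem v hv =>
    obtain ⟨a, c, rfl⟩ := hv
    exact h1 a c y hy

lemma solvable_of_twostep (h2 : ∀ x y z w : g, ⁅⁅x, y⁆, ⁅z, w⁆⁆ = 0) : LieAlgebra.IsSolvable g := by
  refine LieAlgebra.IsSolvable.mk (R := ℝ) (k := 2) ?_
  rw [LieAlgebra.derivedSeries_def, LieAlgebra.derivedSeriesOfIdeal_succ,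
    LieSubmodule.lie_eq_bot_iff]
  have hspan : ∀ x ∈ LieAlgebra.derivedSeriesOfIdeal ℝ g 1 ⊤, x ∈ brs g := by
    intro x hx
    rw [LieAlgebra.derivedSeriesOfIdeal_succ,
      ← LieSubmodule.mem_toSubmodule, LieSubmodule.lieIdeal_oper_eq_linear_span'] at hx
    refine Submodule.span_mono ?_ hx
    rintro v ⟨a, -, c, -, rfl⟩
    exact ⟨a, c, rfl⟩
  intro x hx y hy
  exact brs_lie h2 (hspan x hx) (hspan y hy)

variable {J : g →ₗ[ℝ] g} {B : g →ₗ[ℝ] g →ₗ[ℝ] ℝ}

lemma met_of (H : LieHermitian J B) (h2 : ∀ x y z w : g, ⁅⁅x, y⁆, ⁅z, w⁆⁆ = 0) :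
    Met (mbr H) ((brs g).map (phi H).toLinearMap) where
  mem v w := by
    obtain ⟨x, rfl⟩ := (phi H).surjective v
    obtain ⟨y, rfl⟩ := (phi H).surjective w
    rw [mbr_phi]
    exact Submodule.mem_map_of_mem (Submodule.subset_span ⟨x, y, rfl⟩)
  ab v hv w hw := by
    obtain ⟨x, hx, rfl⟩ := hv
    obtain ⟨y, hy, rfl⟩ := hw
    change mbr H (phi H x) (phi H y) = 0
    rw [mbr_phi, brs_lie h2 hx hy, map_zero]

variable [FiniteDimensional ℝ g]

/-- **Q1 for 2-step solvable Lie algebras.** -/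
theorem chern_twostep [Nontrivial g] (H : LieHermitian J B) (hu : Unimodular g)
    (h2 : ∀ x y z w : g, ⁅⁅x, y⁆, ⁅z, w⁆⁆ = 0)
    {D : g →ₗ[ℝ] g →ₗ[ℝ] g} (hD : IsChern J B D) {c : ℝ} (hc : ConstantHSC J B D c) :
    c = 0 ∧ Flat D := by
  have G := geo H hD
  have M := met_of H h2
  have hnt : Nontrivial (VV H) := (phi H).symm.toEquiv.nontrivial
  have hs := solvable_of_twostep h2
  have htr := uni_phi H hu
  have hH : ∀ v, QQ G.P v v v v = ((c / 2 : ℝ) : ℂ) * ((‖v‖ ^ 2 : ℝ) : ℂ) ^ 2 := by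
    intro v
    have h3 := G.hsc_eq v
    rw [hsc_phi H D hc v] at h3
    push_cast at h3 ⊢
    linear_combination (-1 / 2 : ℂ) * h3
  let JJ : VV H →ₗ[ℝ] VV H :=
    { toFun := fun v => Complex.I • v
      map_add' := fun v w => smul_add _ _ _
      map_smul' := fun r v => smul_comm _ _ _ }
  have hric : RicV H G := by
    intro v w
    have h4 := trace_J G M JJ (fun _ => rfl) ⟨mbr H v w, M.mem v w⟩
    rw [trace_zero G M htr hH, neg_zero, G.trace_Jbr JJ (fun _ => rfl), G.uni htr,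
      Complex.sub_im, Complex.conj_im] at h4
    linarith
  obtain ⟨h3, h4⟩ := G.q1 htr hric (chain_of_solvable H hs G) (hsc_phi H D hc)
  refine ⟨h3, fun x y z => ?_⟩
  have h5 := h4 (phi H x) (phi H y) (phi H z)
  rw [curv_phi] at h5
  exact (LinearEquiv.map_eq_zero_iff _).mp h5

end Pool.Agent.J6H15.LH
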