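import Pool.Agent.J6H15.LH.KN2
import Pool.Agent.J6H15.LH.Geod
import Pool.Agent.J6H15.LH.TwoStep

/-!
Constant Riemannian holomorphic sectional curvature: an ideal on which the Lie algebra acts by
commuting traceless operators.
-/

set_option autoImplicit false

open Module
open scoped ComplexConjugate InnerProductSpace

noncomputable section

namespace Pool.Agent.J6H15.LH

open Pool.Agent.K1H64.LH

universe u

variable {g : Type u} [LieRing g] [LieAlgebra ℝ g] {J : g →ₗ[ℝ] g} {B : g →ₗ[ℝ] g →ₗ[ℝ] ℝ}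

lemma adjoin_comm {R A : Type*} [CommRing R] [Ring A] [Algebra R A] {s : Set A}
    (h : ∀ a ∈ s, ∀ b ∈ s, Commute a b) :
    ∀ a ∈ Algebra.adjoin R s, ∀ b ∈ Algebra.adjoin R s, Commute a b := by
  have h1 : ∀ a ∈ s, ∀ b ∈ Algebra.adjoin R s, Commute a b := by
    intro a ha b hb
    induction hb using Algebra.adjoin_induction with
    | mem b hb => exact h a ha b hb
    | algebraMap r => exact (Algebra.commutes r a).symm
    | add x y _ _ hx hy => exact hx.add_right hy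
    | mul x y _ _ hx hy => exact hx.mul_right hy
  intro a ha b hb
  induction ha using Algebra.adjoin_induction with
  | mem a ha => exact h1 a ha b hb
  | algebraMap r => exact Algebra.commutes r b
  | add x y _ _ hx hy => exact hx.add_left hy
  | mul x y _ _ hx hy => exact hx.mul_left hy

variable [FiniteDimensional ℝ g]

/-- a geodesic vector which commutes with its image under `J` -/
theorem exists_geod_ideal (H : LieHermitian J B) (N : LieIdeal ℝ g) (hN : N ≠ ⊥)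
    (hcomm : ∀ x y : g, ∀ z ∈ N, ⁅⁅x, y⁆, z⁆ = 0)
    (htr : ∀ y : g, LinearMap.trace ℝ N (LieModule.toEnd ℝ g N y) = 0)
    (hnil : ∀ x ∈ N, IsNilpotent (LieModule.toEnd ℝ g N (J x))) :
    ∃ u : g, u ≠ 0 ∧ ⁅u, J u⁆ = 0 ∧ ∀ z, B u ⁅u, z⁆ = 0 := by
  have hnt : Nontrivial N := by
    obtain ⟨x, hx, hx0⟩ : ∃ x ∈ N, x ≠ 0 := by
      by_contra hcon
      push Not at hcon
      exact hN ((LieSubmodule.eq_bot_iff _).mpr hcon)
    exact ⟨⟨x, hx⟩, 0, fun h => hx0 (congrArg Subtype.val h)⟩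
  obtain ⟨s, hs⟩ : ∃ s : Set (Module.End ℝ N), s = Set.range (fun y : g => LieModule.toEnd ℝ g N y) :=
    ⟨_, rfl⟩
  have hmem : ∀ y : g, LieModule.toEnd ℝ g N y ∈ Algebra.adjoin ℝ s := fun y =>
    Algebra.subset_adjoin (by rw [hs]; exact ⟨y, rfl⟩)
  have hA : ∀ a ∈ Algebra.adjoin ℝ s, ∀ b ∈ Algebra.adjoin ℝ s, Commute a b := by
    refine adjoin_comm ?_
    rw [hs]
    rintro _ ⟨x, rfl⟩ _ ⟨y, rfl⟩
    refine LinearMap.ext fun w => Subtype.ext ?_
    have h1 := hcomm x y (w : g) w.2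
    rw [lie_lie, sub_eq_zero] at h1
    exact h1
  obtain ⟨u, hu0, hu1, hu2⟩ := exists_state hA
    (LinearMap.compl₁₂ B N.toSubmodule.subtype N.toSubmodule.subtype)
    (fun x y => H.symm x y) (fun x hx => H.pos x fun h => hx (Subtype.ext h))
  refine ⟨(u : g), fun h => hu0 (Subtype.ext h), ?_, fun z => ?_⟩
  · have h1 := congrArg Subtype.val (hu1 _ (hmem (J u)) (hnil u u.2))
    have h2 : ⁅J (u : g), (u : g)⁆ = 0 := h1
    rw [← lie_skew, h2, neg_zero]
  · have h1 := hu2 _ (hmem z)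
    rw [htr, zero_mul] at h1
    have h2 : (finrank ℝ N : ℝ) ≠ 0 := by
      exact_mod_cast Module.finrank_pos.ne'
    have h3 : B ⁅z, (u : g)⁆ (u : g) = 0 := (mul_eq_zero.mp h1).resolve_left h2
    rw [← lie_skew, map_neg, H.symm, h3, neg_zero]

/-- **The criterion.** -/
theorem riem_ideal (H : LieHermitian J B) (hu : Unimodular g)
    (hr : RicV H (brk H).geo) (N : LieIdeal ℝ g) (hN : N ≠ ⊥)
    (hcomm : ∀ x y : g, ∀ z ∈ N, ⁅⁅x, y⁆, z⁆ = 0)
    (htr : ∀ y : g, LinearMap.trace ℝ N (LieModule.toEnd ℝ g N y) = 0)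
    (hnil : ∀ x ∈ N, IsNilpotent (LieModule.toEnd ℝ g N (J x)))
    {D : g →ₗ[ℝ] g →ₗ[ℝ] g} (hD : IsLeviCivita B D) {c : ℝ} (hc : ConstantHSC J B D c) :
    c = 0 ∧ Flat D ∧ ∀ x y, D x (J y) = J (D x y) := by
  obtain ⟨u, hu0, huJ, hug⟩ := exists_geod_ideal H N hN hcomm htr hnil
  exact riem_of_geod H hu hr hD hu0 huJ hug hc

end Pool.Agent.J6H15.LH
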