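import Pool.Agent.J6H15.LH.Lin

/-!
A commutative algebra of operators on a finite-dimensional real vector space with an inner product
has a vector state which is the normalized trace: there is a vector `u ≠ 0` with
`dim · ⟨M u, u⟩ = tr M · ⟨u, u⟩` for all `M` in the algebra, and `u` is killed by all nilpotent
elements of the algebra.
-/

set_option autoImplicit false

open Module

noncomputable section

namespace Pool.Agent.J6H15.LH

section det

variable {K M : Type*} [Field K] [AddCommGroup M] [Module K M] [FiniteDimensional K M]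

lemma det_one_add_nil {ν : Module.End K M} (h : IsNilpotent ν) : LinearMap.det (1 + ν) = 1 := by
  have h1 : (LinearMap.charpoly (-ν)).eval 1 = 1 := by
    rw [IsNilpotent.charpoly_eq_X_pow_finrank h.neg]
    simp
  rw [LinearMap.eval_charpoly] at h1
  simpa using h1

lemma det_add_nil {b ν : Module.End K M} (hc : Commute b ν) (hν : IsNilpotent ν)
    (hb : LinearMap.det b ≠ 0) : LinearMap.det (b + ν) = LinearMap.det b := by
  obtain ⟨b', hb'⟩ : ∃ b' : (Module.End K M)ˣ, (b' : Module.End K M) = b :=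
    (LinearMap.isUnit_iff_isUnit_det b).mpr (isUnit_iff_ne_zero.mpr hb)
  have h1 : b + ν = b * (1 + (↑b'⁻¹ : Module.End K M) * ν) := by
    rw [mul_add, mul_one, ← mul_assoc, ← hb', Units.mul_inv, one_mul]
  have h2 : Commute (↑b'⁻¹ : Module.End K M) ν := by
    rw [← hb'] at hc
    exact hc.units_inv_left
  rw [h1, map_mul, det_one_add_nil (h2.isNilpotent_mul_left hν), mul_one]

end det

section idem

variable {M : Type*} [AddCommGroup M] [Module ℝ M] [FiniteDimensional ℝ M]

open Polynomial in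
/-- an endomorphism which is not nilpotent has a polynomial multiple that is a nonzero idempotent -/
theorem exists_idem_nn (f : Module.End ℝ M) (hf : ¬ IsNilpotent f) :
    ∃ p : ℝ[X], (aeval f p * f) * (aeval f p * f) = aeval f p * f ∧ aeval f p * f ≠ 0 := by
  have hm0 : minpoly ℝ f ≠ 0 := minpoly.ne_zero (Algebra.IsIntegral.isIntegral f)
  obtain ⟨q, hq, hq2⟩ := exists_eq_pow_rootMultiplicity_mul_and_not_dvd (minpoly ℝ f) hm0 0
  set k := rootMultiplicity 0 (minpoly ℝ f) with hk
  rw [map_zero, sub_zero] at hq hq2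
  have hcop : IsCoprime (X ^ (k + 1) : ℝ[X]) q := by
    refine IsCoprime.pow_left ?_
    exact (Irreducible.coprime_iff_not_dvd Polynomial.irreducible_X).mpr hq2
  obtain ⟨u, v, huv⟩ := hcop
  have h1 : aeval f (u * X ^ k) * f = aeval f (u * X ^ (k + 1)) := by
    rw [map_mul, map_mul, map_pow, map_pow, aeval_X, pow_succ, mul_assoc]
  have h2 : aeval f (X ^ k * q) = 0 := by rw [← hq, minpoly.aeval]
  refine ⟨u * X ^ k, ?_, ?_⟩
  · rw [h1, ← sub_eq_zero, ← map_mul, ← map_sub]
    have h3 : (u * X ^ (k + 1)) * (u * X ^ (k + 1)) - u * X ^ (k + 1)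
        = (X ^ k * q) * (-(u * v * X)) := by
      have h4 : u * X ^ (k + 1) - 1 = - (v * q) := by rw [← huv]; ring
      calc (u * X ^ (k + 1)) * (u * X ^ (k + 1)) - u * X ^ (k + 1)
          = (u * X ^ (k + 1)) * (u * X ^ (k + 1) - 1) := by ring
        _ = _ := by rw [h4]; ring
    rw [h3, map_mul, h2, zero_mul]
  · rw [h1]
    intro h0
    apply hf
    refine ⟨k, ?_⟩
    have h3 : aeval f (u * X ^ (k + 1) + v * q) = aeval f (1 : ℝ[X]) := by rw [huv]
    rw [map_add, h0, zero_add, map_mul, map_one] at h3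
    have h4 : aeval f (X ^ k : ℝ[X]) = 0 := by
      have h5 : aeval f (X ^ k : ℝ[X]) * (aeval f q * aeval f v) = 0 := by
        rw [← mul_assoc, ← map_mul, h2, zero_mul]
      have h6 : aeval f q * aeval f v = 1 := by
        rw [← map_mul, mul_comm, map_mul, h3]
      rw [h6, mul_one] at h5
      exact h5
    rwa [map_pow, aeval_X] at h4

end idem

section socle

variable {M : Type*} [AddCommGroup M] [Module ℝ M] [FiniteDimensional ℝ M]
variable {A : Subalgebra ℝ (Module.End ℝ M)}

/-- a nonzero invariant subspace contains a nonzero vector killed by all nilpotent elements -/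
theorem exists_socle (hA : ∀ a ∈ A, ∀ b ∈ A, Commute a b) :
    ∀ (k : ℕ) (N : Submodule ℝ M), finrank ℝ N ≤ k → N ≠ ⊥ → (∀ a ∈ A, ∀ x ∈ N, a x ∈ N) →
      ∃ u ∈ N, u ≠ 0 ∧ ∀ a ∈ A, IsNilpotent a → a u = 0 := by
  intro k
  induction k with
  | zero =>
    intro N hk hN _
    exact absurd (Submodule.finrank_eq_zero.mp (Nat.le_zero.mp hk)) hN
  | succ k ih =>
    intro N hk hN hinv
    by_cases h : ∀ a ∈ A, IsNilpotent a → N.map a = ⊥
    · obtain ⟨u, hu, hu0⟩ := Submodule.exists_mem_ne_zero_of_ne_bot hN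
      refine ⟨u, hu, hu0, fun a ha hn => ?_⟩
      have h1 : a u ∈ N.map a := Submodule.mem_map_of_mem hu
      rw [h a ha hn] at h1
      exact (Submodule.mem_bot ℝ).mp h1
    · push Not at h
      obtain ⟨a, ha, hn, hne⟩ := h
      have hle : N.map a ≤ N := by
        rintro _ ⟨x, hx, rfl⟩
        exact hinv a ha x hx
      have hlt : N.map a < N := by
        refine lt_of_le_of_ne hle fun heq => ?_
        obtain ⟨m, hm⟩ := hn
        have h1 : ∀ j : ℕ, N.map (a ^ j) = N := by
          intro j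
          induction j with
          | zero => rw [pow_zero]; exact Submodule.map_id N
          | succ j ihj =>
            have h2 : N.map (a ^ (j + 1)) = (N.map (a ^ j)).map a := by
              rw [← Submodule.map_comp, pow_succ']
              rfl
            rw [h2, ihj, heq]
        have h2 := h1 m
        rw [hm, Submodule.map_zero] at h2
        exact hN h2.symm
      have h3 : finrank ℝ (N.map a) ≤ k := by
        have := Submodule.finrank_lt_finrank_of_lt hlt
        omega
      obtain ⟨u, hu, hu0, hu1⟩ := ih (N.map a) h3 hne (by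
        rintro b hb _ ⟨x, hx, rfl⟩
        refine ⟨b x, hinv b hb x hx, ?_⟩
        have := LinearMap.congr_fun (hA a ha b hb) x
        exact this)
      exact ⟨u, hle hu, hu0, hu1⟩

/-- elements which are not nilpotent act nontrivially on the socle; moreover there is a nonzero
idempotent which vanishes on all vectors killed by the given element -/
theorem exists_idem_socle (hA : ∀ a ∈ A, ∀ b ∈ A, Commute a b) {b : Module.End ℝ M} (hb : b ∈ A)
    (hbn : ¬ IsNilpotent b) :
    ∃ e ∈ A, e * e = e ∧ (∀ x, b x = 0 → e x = 0) ∧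
      ∃ u, e u = u ∧ u ≠ 0 ∧ ∀ a ∈ A, IsNilpotent a → a u = 0 := by
  obtain ⟨p, hp1, hp2⟩ := exists_idem_nn b hbn
  obtain ⟨e, he⟩ : ∃ e, e = Polynomial.aeval b p * b := ⟨_, rfl⟩
  rw [← he] at hp1 hp2
  have hpA : Polynomial.aeval b p ∈ A := by
    have h1 : Polynomial.aeval b p = ((Polynomial.aeval (⟨b, hb⟩ : A) p : A) : Module.End ℝ M) :=
      (Polynomial.aeval_subalgebra_coe p A (⟨b, hb⟩ : A)).symm
    rw [h1]
    exact (Polynomial.aeval (⟨b, hb⟩ : A) p).2
  have heA : e ∈ A := by rw [he]; exact A.mul_mem hpA hb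
  refine ⟨e, heA, hp1, ?_, ?_⟩
  · intro x hx
    rw [he, Module.End.mul_apply, hx, map_zero]
  · obtain ⟨u, ⟨v, rfl⟩, hu0, hu1⟩ := exists_socle hA _ (LinearMap.range e) le_rfl
      (by rwa [Ne, LinearMap.range_eq_bot]) (by
        rintro a ha _ ⟨x, rfl⟩
        refine ⟨a x, ?_⟩
        exact LinearMap.congr_fun (hA e heA a ha) x)
    refine ⟨e v, ?_, hu0, hu1⟩
    exact LinearMap.congr_fun hp1 v

/-- a vector in the socle whose annihilator consists of nilpotent elements -/
theorem exists_generic (hA : ∀ a ∈ A, ∀ b ∈ A, Commute a b) :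
    ∃ u : M, (∀ a ∈ A, IsNilpotent a → a u = 0) ∧ ∀ a ∈ A, a u = 0 → IsNilpotent a := by
  classical
  -- the annihilator of a vector
  let ann : M → Submodule ℝ (Module.End ℝ M) := fun u =>
    Subalgebra.toSubmodule A ⊓ LinearMap.ker (LinearMap.applyₗ u : Module.End ℝ M →ₗ[ℝ] M)
  have hann : ∀ u a, a ∈ ann u ↔ a ∈ A ∧ a u = 0 := by
    intro u a
    rw [Submodule.mem_inf, Subalgebra.mem_toSubmodule, LinearMap.mem_ker]
    rfl
  have hex : ∃ k, ∃ u : M, (∀ a ∈ A, IsNilpotent a → a u = 0) ∧ finrank ℝ (ann u) = k :=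
    ⟨_, 0, fun a _ _ => map_zero a, rfl⟩
  obtain ⟨m, hm⟩ : ∃ m, m = Nat.find hex := ⟨_, rfl⟩
  obtain ⟨u, hu1, hu2⟩ : ∃ u : M, (∀ a ∈ A, IsNilpotent a → a u = 0) ∧ finrank ℝ (ann u) = m :=
    hm ▸ Nat.find_spec hex
  have hmin : ∀ w : M, (∀ a ∈ A, IsNilpotent a → a w = 0) → m ≤ finrank ℝ (ann w) := by
    intro w hw
    rw [hm]
    exact Nat.find_min' hex ⟨w, hw, rfl⟩
  refine ⟨u, hu1, fun b hb hbu => ?_⟩
  by_contra hbn
  obtain ⟨e, heA, hee, he1, w, hw1, hw0, hw2⟩ := exists_idem_socle hA hb hbn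
  have heu : e u = 0 := he1 u hbu
  have h1 : ann (u + w) < ann u := by
    refine lt_of_le_of_ne ?_ ?_
    · intro a ha
      rw [hann] at ha ⊢
      refine ⟨ha.1, ?_⟩
      have h2 : a (e (u + w)) = 0 := by
        have h3 : a (e (u + w)) = e (a (u + w)) := (LinearMap.congr_fun (hA e heA a ha.1) (u + w)).symm
        rw [h3, ha.2, map_zero]
      rw [map_add, heu, hw1, zero_add] at h2
      have h3 := ha.2
      rwa [map_add, h2, add_zero] at h3
    · intro heq
      have h2 : e ∈ ann u := (hann u e).mpr ⟨heA, heu⟩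
      rw [← heq, hann, map_add, heu, hw1, zero_add] at h2
      exact hw0 h2.2
  have h2 := Submodule.finrank_lt_finrank_of_lt h1
  have h3 := hmin (u + w) (fun a ha hn => by rw [map_add, hu1 a ha hn, hw2 a ha hn, add_zero])
  omega

end socle

end Pool.Agent.J6H15.LH
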