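import Pool.Agent.J6H15.LH.KN

/-!
A commutative algebra of operators has a vector state which is the normalized trace: the
variational argument.
-/

set_option autoImplicit false

open Module

noncomputable section

namespace Pool.Agent.J6H15.LH

/-- comparing first derivatives -/
lemma deriv_cmp {d : ℕ} (hd : d ≠ 0) {α β γ τ : ℝ} (hβ : 0 < β) (h : Polynomial ℝ)
    (hle : ∀ t : ℝ, (1 + τ * t + h.eval t * t ^ 2) ^ 2 * β ^ d ≤ (β + 2 * t * α + t ^ 2 * γ) ^ d) :
    d * α = τ * β := by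
  obtain ⟨m, rfl⟩ := Nat.exists_eq_succ_of_ne_zero hd
  have h1 : HasDerivAt (fun t : ℝ => (β + 2 * t * α + t ^ 2 * γ) ^ (m + 1)
      - (1 + τ * t + h.eval t * t ^ 2) ^ 2 * β ^ (m + 1))
      (((m + 1 : ℕ) : ℝ) * β ^ m * (2 * α) - 2 * τ * β ^ (m + 1)) 0 := by
    have a1 : HasDerivAt (fun t : ℝ => β + 2 * t * α + t ^ 2 * γ) (2 * α) 0 := by
      have b1 : HasDerivAt (fun t : ℝ => 2 * t * α) (2 * 1 * α) 0 :=
        ((hasDerivAt_id (0 : ℝ)).const_mul 2).mul_const α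
      have b2 : HasDerivAt (fun t : ℝ => t ^ 2 * γ) ((2 : ℕ) * (0 : ℝ) ^ (2 - 1) * γ) 0 :=
        (hasDerivAt_pow 2 (0 : ℝ)).mul_const γ
      have b3 : HasDerivAt (fun t : ℝ => β + 2 * t * α + t ^ 2 * γ)
          (2 * 1 * α + (2 : ℕ) * (0 : ℝ) ^ (2 - 1) * γ) 0 := (b1.const_add β).add b2
      convert b3 using 1
      norm_num
    have a2 : HasDerivAt (fun t : ℝ => 1 + τ * t + h.eval t * t ^ 2) τ 0 := by
      have b1 : HasDerivAt (fun t : ℝ => τ * t) (τ * 1) 0 := (hasDerivAt_id (0 : ℝ)).const_mul τ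
      have b2 : HasDerivAt (fun t : ℝ => h.eval t * t ^ 2)
          (h.derivative.eval 0 * (0 : ℝ) ^ 2 + h.eval 0 * ((2 : ℕ) * (0 : ℝ) ^ (2 - 1))) 0 :=
        (h.hasDerivAt (0 : ℝ)).mul (hasDerivAt_pow 2 (0 : ℝ))
      have b3 : HasDerivAt (fun t : ℝ => 1 + τ * t + h.eval t * t ^ 2)
          (τ * 1 + (h.derivative.eval 0 * (0 : ℝ) ^ 2 + h.eval 0 * ((2 : ℕ) * (0 : ℝ) ^ (2 - 1)))) 0 :=
        (b1.const_add 1).add b2
      convert b3 using 1
      norm_num
    have a3 : HasDerivAt (fun t : ℝ => (β + 2 * t * α + t ^ 2 * γ) ^ (m + 1)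
        - (1 + τ * t + h.eval t * t ^ 2) ^ 2 * β ^ (m + 1))
        (((m + 1 : ℕ) : ℝ) * (β + 2 * 0 * α + 0 ^ 2 * γ) ^ (m + 1 - 1) * (2 * α)
          - (2 : ℕ) * (1 + τ * 0 + h.eval 0 * 0 ^ 2) ^ (2 - 1) * τ * β ^ (m + 1)) 0 :=
      (a1.pow (m + 1)).sub ((a2.pow 2).mul_const (β ^ (m + 1)))
    convert a3 using 1
    norm_num
  have h2 : IsLocalMin (fun t : ℝ => (β + 2 * t * α + t ^ 2 * γ) ^ (m + 1)
      - (1 + τ * t + h.eval t * t ^ 2) ^ 2 * β ^ (m + 1)) 0 := by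
    refine Filter.Eventually.of_forall fun t => ?_
    have h3 := hle t
    change (β + 2 * 0 * α + 0 ^ 2 * γ) ^ (m + 1) - (1 + τ * 0 + h.eval 0 * 0 ^ 2) ^ 2 * β ^ (m + 1)
      ≤ (β + 2 * t * α + t ^ 2 * γ) ^ (m + 1) - (1 + τ * t + h.eval t * t ^ 2) ^ 2 * β ^ (m + 1)
    have h4 : (β + 2 * 0 * α + 0 ^ 2 * γ) ^ (m + 1)
        - (1 + τ * 0 + h.eval 0 * 0 ^ 2) ^ 2 * β ^ (m + 1) = 0 := by
      rw [show β + 2 * 0 * α + 0 ^ 2 * γ = β by ring, show 1 + τ * 0 + h.eval 0 * 0 ^ 2 = 1 by ring]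
      ring
    rw [h4]
    exact sub_nonneg.mpr h3
  have h3 := h2.hasDerivAt_eq_zero h1
  have h4 : β ^ m ≠ 0 := (pow_pos hβ m).ne'
  have h5 : β ^ m * (((m + 1 : ℕ) : ℝ) * α - τ * β) = 0 := by
    rw [pow_succ] at h3
    linear_combination h3 / 2
  have h6 := (mul_eq_zero.mp h5).resolve_left h4
  linarith

variable {M : Type*} [AddCommGroup M] [Module ℝ M] [FiniteDimensional ℝ M] [Nontrivial M]
variable {A : Subalgebra ℝ (Module.End ℝ M)}

lemma det_one_add_smul' (a : Module.End ℝ M) : ∃ h : Polynomial ℝ, ∀ t : ℝ,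
    LinearMap.det (1 + t • a) = 1 + LinearMap.trace ℝ M a * t + h.eval t * t ^ 2 := by
  classical
  let b := Module.finBasis ℝ M
  refine ⟨(Matrix.det (1 + (Polynomial.X : Polynomial ℝ) •
    (LinearMap.toMatrix b b a).map Polynomial.C)).divX.divX, fun t => ?_⟩
  rw [← LinearMap.det_toMatrix b, map_add, map_smul, LinearMap.toMatrix_one,
    Matrix.det_one_add_smul, LinearMap.trace_eq_matrix_trace ℝ b]

/-- **A vector state equal to the normalized trace.** -/
theorem exists_state (hA : ∀ a ∈ A, ∀ b ∈ A, Commute a b) (B : M →ₗ[ℝ] M →ₗ[ℝ] ℝ)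
    (hsymm : ∀ x y, B x y = B y x) (hpos : ∀ x, x ≠ 0 → 0 < B x x) :
    ∃ u : M, u ≠ 0 ∧ (∀ a ∈ A, IsNilpotent a → a u = 0) ∧
      ∀ a ∈ A, (finrank ℝ M : ℝ) * B (a u) u = LinearMap.trace ℝ M a * B u u := by
  classical
  obtain ⟨u0, hu1, hu2⟩ := exists_generic hA
  have hu0 : u0 ≠ 0 := by
    rintro rfl
    have h1 := hu2 1 A.one_mem (map_zero _)
    exact not_isNilpotent_one h1
  obtain ⟨d, hd⟩ : ∃ d, d = finrank ℝ M := ⟨_, rfl⟩
  have hd0 : d ≠ 0 := by
    rw [hd]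
    exact Module.finrank_pos.ne'
  -- the cyclic module
  let Q : Submodule ℝ M := (Subalgebra.toSubmodule A).map
    (LinearMap.applyₗ u0 : Module.End ℝ M →ₗ[ℝ] M)
  have hQ : ∀ v, v ∈ Q ↔ ∃ a ∈ A, a u0 = v := fun v => Iff.rfl
  let v := Module.finBasis ℝ Q
  obtain ⟨k, hk⟩ : ∃ k, k = finrank ℝ Q := ⟨_, rfl⟩
  have hc : ∀ i : Fin (finrank ℝ Q), ∃ a ∈ A, a u0 = (v i : M) := fun i => (hQ _).mp (v i).2
  choose c hc1 hc2 using hc
  let T : (Fin (finrank ℝ Q) → ℝ) → Module.End ℝ M := fun x => ∑ i, x i • c i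
  have hT : ∀ x, T x = ∑ i, x i • c i := fun x => rfl
  have hTA : ∀ x, T x ∈ A := fun x => A.sum_mem fun i _ => A.smul_mem (hc1 i) _
  have hTv : ∀ x, T x u0 = ((∑ i, x i • v i : Q) : M) := by
    intro x
    rw [hT, LinearMap.sum_apply, Submodule.coe_sum]
    refine Finset.sum_congr rfl fun i _ => ?_
    rw [LinearMap.smul_apply, hc2, Submodule.coe_smul]
  have hT0 : ∀ x, T x u0 = 0 → x = 0 := by
    intro x hx
    rw [hTv] at hx
    have h1 : (∑ i, x i • v i : Q) = 0 := by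
      apply Subtype.ext
      rw [hx]
      rfl
    funext i
    exact (Fintype.linearIndependent_iff.mp v.linearIndependent) x h1 i
  have hTs : ∀ b ∈ A, ∃ x, T x u0 = b u0 := by
    intro b hb
    refine ⟨fun i => v.repr ⟨b u0, (hQ _).mpr ⟨b, hb, rfl⟩⟩ i, ?_⟩
    rw [hTv, v.sum_repr]
  have hTsmul : ∀ (r : ℝ) x, T (r • x) = r • T x := by
    intro r x
    rw [hT, hT, Finset.smul_sum]
    refine Finset.sum_congr rfl fun i _ => ?_
    rw [Pi.smul_apply, smul_eq_mul, mul_smul]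
  have hTdet : ∀ b ∈ A, LinearMap.det b ≠ 0 → ∀ x, T x u0 = b u0 →
      LinearMap.det (T x) = LinearMap.det b := by
    intro b hb hbd x hx
    have h1 : T x = b + (T x - b) := by abel
    have h2 : T x - b ∈ A := A.sub_mem (hTA x) hb
    rw [h1]
    exact det_add_nil (hA b hb _ h2) (hu2 _ h2 (by rw [LinearMap.sub_apply, hx, sub_self])) hbd
  -- the two functions
  have hFc : Continuous (fun x => B (T x u0) (T x u0)) := by
    have h1 : ∀ x, B (T x u0) (T x u0) = ∑ i, ∑ j, x i * (x j * B (c i u0) (c j u0)) := by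
      intro x
      rw [hT, LinearMap.sum_apply]
      simp only [map_sum, LinearMap.sum_apply, LinearMap.smul_apply, map_smul, smul_eq_mul,
        Finset.mul_sum]
      rw [Finset.sum_comm]
      refine Finset.sum_congr rfl fun i _ => Finset.sum_congr rfl fun j _ => ?_
      ring
    simp only [h1]
    fun_prop
  have hDc : Continuous (fun x => LinearMap.det (T x)) := by
    let b := Module.finBasis ℝ M
    have h1 : ∀ x, LinearMap.det (T x) = Matrix.det (∑ i, x i • LinearMap.toMatrix b b (c i)) := by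
      intro x
      rw [← LinearMap.det_toMatrix b, hT, map_sum]
      simp only [map_smul]
    simp only [h1]
    refine Continuous.matrix_det ?_
    fun_prop
  have hFpos : ∀ x, x ≠ 0 → 0 < B (T x u0) (T x u0) := fun x hx => hpos _ fun h => hx (hT0 x h)
  obtain ⟨x1, hx1⟩ := hTs 1 A.one_mem
  have hx1d : LinearMap.det (T x1) = 1 := by
    rw [hTdet 1 A.one_mem (by rw [map_one]; exact one_ne_zero) x1 hx1, map_one]
  have hx10 : x1 ≠ 0 := by
    rintro rfl
    rw [hT] at hx1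
    simp at hx1
    exact hu0 hx1.symm
  have hnt : Nontrivial (Fin (finrank ℝ Q) → ℝ) := ⟨x1, 0, hx10⟩
  -- a maximum on the sphere
  obtain ⟨x, hx, hmax⟩ := (isCompact_sphere (0 : Fin (finrank ℝ Q) → ℝ) 1).exists_isMaxOn
    (NormedSpace.sphere_nonempty.mpr zero_le_one)
    (f := fun x => LinearMap.det (T x) ^ 2 / B (T x u0) (T x u0) ^ d)
    (ContinuousOn.div (hDc.pow 2).continuousOn (hFc.pow d).continuousOn (by
      intro x hx
      have h1 : x ≠ 0 := by
        rintro rfl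
        simp at hx
      exact (pow_pos (hFpos x h1) d).ne'))
  have hx0 : x ≠ 0 := by
    rintro rfl
    simp at hx
  have hmax2 : ∀ y, y ≠ 0 → LinearMap.det (T y) ^ 2 / B (T y u0) (T y u0) ^ d
      ≤ LinearMap.det (T x) ^ 2 / B (T x u0) (T x u0) ^ d := by
    intro y hy
    have hy1 : 0 < ‖y‖ := norm_pos_iff.mpr hy
    have h1 : ‖y‖⁻¹ • y ∈ Metric.sphere (0 : Fin (finrank ℝ Q) → ℝ) 1 := by
      rw [mem_sphere_zero_iff_norm, norm_smul, norm_inv, norm_norm, inv_mul_cancel₀ hy1.ne']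
    have h2 := hmax h1
    simp only [Set.mem_setOf_eq] at h2
    rw [hTsmul, LinearMap.det_smul, ← hd, LinearMap.smul_apply, map_smul, map_smul,
      LinearMap.smul_apply, smul_eq_mul, smul_eq_mul] at h2
    refine le_trans (le_of_eq ?_) h2
    have e0 : (‖y‖⁻¹ ^ d) ^ 2 ≠ 0 := by positivity
    have e1 : (‖y‖⁻¹ ^ d * LinearMap.det (T y)) ^ 2 = (‖y‖⁻¹ ^ d) ^ 2 * LinearMap.det (T y) ^ 2 := by
      ring
    have e2 : (‖y‖⁻¹ * (‖y‖⁻¹ * B (T y u0) (T y u0))) ^ d
        = (‖y‖⁻¹ ^ d) ^ 2 * B (T y u0) (T y u0) ^ d := by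
      rw [mul_pow, mul_pow]; ring
    rw [e1, e2, mul_div_mul_left _ _ e0]
  have hdx : LinearMap.det (T x) ≠ 0 := by
    intro h0
    have h1 := hmax2 x1 hx10
    rw [hx1d, h0] at h1
    have h2 : 0 < (1 : ℝ) ^ 2 / B (T x1 u0) (T x1 u0) ^ d :=
      div_pos (by norm_num) (pow_pos (hFpos x1 hx10) d)
    have h3 : (0 : ℝ) ^ 2 / B (T x u0) (T x u0) ^ d = 0 := by simp
    linarith
  obtain ⟨u, hu⟩ : ∃ u, u = T x u0 := ⟨_, rfl⟩
  have hune : u ≠ 0 := by rw [hu]; exact fun h => hx0 (hT0 x h)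
  have hβ : 0 < B u u := hpos u hune
  refine ⟨u, hune, ?_, ?_⟩
  · intro a ha hn
    rw [hu]
    have h1 : a (T x u0) = T x (a u0) := LinearMap.congr_fun (hA a ha _ (hTA x)) u0
    rw [h1, hu1 a ha hn, map_zero]
  · intro a ha
    obtain ⟨h, hh⟩ := det_one_add_smul' a
    rw [← hd]
    refine deriv_cmp hd0 hβ h (γ := B (a u) (a u)) fun t => ?_
    rw [← hh t]
    have hB : B u u + 2 * t * B (a u) u + t ^ 2 * B (a u) (a u)
        = B ((1 + t • a) u) ((1 + t • a) u) := by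
      simp only [LinearMap.add_apply, LinearMap.smul_apply, Module.End.one_apply, map_add, map_smul,
        smul_eq_mul]
      rw [hsymm u (a u)]
      ring
    rw [hB]
    have hge : 0 ≤ B ((1 + t • a) u) ((1 + t • a) u) := by
      by_cases h0 : (1 + t • a) u = 0
      · rw [h0, map_zero]
      · exact (hpos _ h0).le
    by_cases h0 : LinearMap.det (1 + t • a) = 0
    · rw [h0]
      simp only [ne_eq, OfNat.ofNat_ne_zero, not_false_eq_true, zero_pow, zero_mul]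
      exact pow_nonneg hge d
    · have hbA : (1 + t • a) * T x ∈ A :=
        A.mul_mem (A.add_mem A.one_mem (A.smul_mem ha t)) (hTA x)
      have hbd : LinearMap.det ((1 + t • a) * T x) ≠ 0 := by
        rw [map_mul]
        exact mul_ne_zero h0 hdx
      obtain ⟨y, hy⟩ := hTs _ hbA
      have hyd := hTdet _ hbA hbd y hy
      have hy0 : y ≠ 0 := by
        rintro rfl
        have h1 : T 0 = 0 := by rw [hT]; simp
        rw [h1, LinearMap.det_zero''] at hyd
        exact hbd hyd.symm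
      have h2 := hmax2 y hy0
      have hFy := hFpos y hy0
      rw [hy, Module.End.mul_apply, ← hu] at hFy
      rw [hyd, hy, Module.End.mul_apply, ← hu, map_mul,
        div_le_div_iff₀ (pow_pos hFy d) (pow_pos hβ d)] at h2
      have h3 : 0 < LinearMap.det (T x) ^ 2 := by positivity
      refine le_of_mul_le_mul_left ?_ h3
      calc LinearMap.det (T x) ^ 2 * (LinearMap.det (1 + t • a) ^ 2 * B u u ^ d)
          = (LinearMap.det (1 + t • a) * LinearMap.det (T x)) ^ 2 * B u u ^ d := by ring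
        _ ≤ _ := h2
end Pool.Agent.J6H15.LH
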