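import Mathlib

/-!
Linear algebra: the trace of an endomorphism with an invariant subspace, and an idempotent
polynomial in an endomorphism with nonzero trace.
-/

set_option autoImplicit false

open Module

noncomputable section

namespace Pool.Agent.J6H15.LH

section quot

variable {K M : Type*} [Field K] [AddCommGroup M] [Module K M] [FiniteDimensional K M]

/-- the trace is additive along an invariant subspace -/
theorem trace_quot (W : Submodule K M) (f : M →ₗ[K] M) (hf : ∀ x ∈ W, f x ∈ W) :
    LinearMap.trace K M f = LinearMap.trace K W (f.restrict hf)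
      + LinearMap.trace K (M ⧸ W) (W.mapQ W f hf) := by
  obtain ⟨s, hs⟩ := W.mkQ.exists_rightInverse_of_surjective W.range_mkQ
  have hs' : ∀ q, W.mkQ (s q) = q := fun q => LinearMap.congr_fun hs q
  let p : M →ₗ[K] W := LinearMap.codRestrict W (LinearMap.id - s ∘ₗ W.mkQ) (by
    intro x
    rw [← Submodule.Quotient.mk_eq_zero W]
    change W.mkQ (x - s (W.mkQ x)) = 0
    rw [map_sub, hs', sub_self])
  have h1 : f = (f ∘ₗ W.subtype) ∘ₗ p + (f ∘ₗ s) ∘ₗ W.mkQ := by
    ext x
    simp [p]
  have h2 : p ∘ₗ (f ∘ₗ W.subtype) = f.restrict hf := by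
    ext w
    have h3 : W.mkQ (f w) = 0 := (Submodule.Quotient.mk_eq_zero W).mpr (hf w w.2)
    change f w - s (W.mkQ (f w)) = f w
    rw [h3, map_zero, sub_zero]
  have h4 : W.mkQ ∘ₗ (f ∘ₗ s) = W.mapQ W f hf := by
    refine LinearMap.ext fun q => ?_
    obtain ⟨x, hx⟩ := W.mkQ_surjective q
    have h5 : x - s q ∈ W := by
      rw [← Submodule.Quotient.mk_eq_zero W]
      change W.mkQ (x - s q) = 0
      rw [map_sub, hs', hx, sub_self]
    have h6 : W.mkQ (f x) = W.mkQ (f (s q)) := by
      rw [← sub_eq_zero, ← map_sub, ← map_sub]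
      exact (Submodule.Quotient.mk_eq_zero W).mpr (hf _ h5)
    rw [LinearMap.comp_apply, LinearMap.comp_apply, ← h6, ← hx]
    rfl
  conv_lhs => rw [h1]
  rw [map_add, LinearMap.trace_comp_comm', LinearMap.trace_comp_comm' W.mkQ, h2, h4]

end quot

section idem

variable {M : Type*} [AddCommGroup M] [Module ℝ M] [FiniteDimensional ℝ M]

open Polynomial in
/-- an endomorphism with nonzero trace has a polynomial multiple that is an idempotent with
positive trace -/
theorem exists_idem (f : M →ₗ[ℝ] M) (hf : LinearMap.trace ℝ M f ≠ 0) :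
    ∃ p : ℝ[X], (aeval f p * f) * (aeval f p * f) = aeval f p * f ∧
      0 < LinearMap.trace ℝ M (aeval f p * f) := by
  have hnil : ¬ IsNilpotent f := by
    intro h
    exact hf (LinearMap.isNilpotent_trace_of_isNilpotent h).eq_zero
  have hm0 : minpoly ℝ f ≠ 0 := minpoly.ne_zero (Algebra.IsIntegral.isIntegral f)
  obtain ⟨q, hq, hq2⟩ := exists_eq_pow_rootMultiplicity_mul_and_not_dvd (minpoly ℝ f) hm0 0
  set k := rootMultiplicity 0 (minpoly ℝ f) with hk
  rw [map_zero, sub_zero] at hq hq2
  have hcop : IsCoprime (X ^ (k + 1) : ℝ[X]) q := by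
    refine IsCoprime.pow_left ?_
    exact (Irreducible.coprime_iff_not_dvd Polynomial.irreducible_X).mpr hq2
  obtain ⟨u, v, huv⟩ := hcop
  refine ⟨u * X ^ k, ?_, ?_⟩
  · have h1 : aeval f (u * X ^ k) * f = aeval f (u * X ^ (k + 1)) := by
      rw [map_mul, map_mul, map_pow, map_pow, aeval_X, pow_succ, mul_assoc]
    rw [h1, ← sub_eq_zero, ← map_mul, ← map_sub]
    have h2 : u * X ^ (k + 1) * (u * X ^ (k + 1)) - u * X ^ (k + 1)
        = - (u * v * X) * minpoly ℝ f := by
      rw [hq]
      have : u * X ^ (k + 1) = 1 - v * q := by rw [← huv]; ring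
      calc u * X ^ (k + 1) * (u * X ^ (k + 1)) - u * X ^ (k + 1)
          = (u * X ^ (k + 1)) * (u * X ^ (k + 1) - 1) := by ring
        _ = (u * X ^ (k + 1)) * (- (v * q)) := by rw [this]; ring
        _ = _ := by ring
    rw [h2, map_mul, minpoly.aeval, mul_zero]
  · have h1 : aeval f (u * X ^ k) * f = aeval f (u * X ^ (k + 1)) := by
      rw [map_mul, map_mul, map_pow, map_pow, aeval_X, pow_succ, mul_assoc]
    have he : IsIdempotentElem (aeval f (u * X ^ (k + 1))) := by
      rw [IsIdempotentElem, ← sub_eq_zero, ← map_mul, ← map_sub]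
      have h2 : u * X ^ (k + 1) * (u * X ^ (k + 1)) - u * X ^ (k + 1)
          = - (u * v * X) * minpoly ℝ f := by
        rw [hq]
        have : u * X ^ (k + 1) = 1 - v * q := by rw [← huv]; ring
        calc u * X ^ (k + 1) * (u * X ^ (k + 1)) - u * X ^ (k + 1)
            = (u * X ^ (k + 1)) * (u * X ^ (k + 1) - 1) := by ring
          _ = (u * X ^ (k + 1)) * (- (v * q)) := by rw [this]; ring
          _ = _ := by ring
      rw [h2, map_mul, minpoly.aeval, mul_zero]
    rw [h1]
    refine lt_of_le_of_ne ?_ ?_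
    · rw [LinearMap.IsProj.trace (LinearMap.IsIdempotentElem.isProj_range _ he)]
      exact Nat.cast_nonneg _
    · intro h0
      have he0 := LinearMap.IsIdempotentElem.eq_zero_of_trace_eq_zero he h0.symm
      apply hnil
      refine ⟨k, ?_⟩
      have h3 : aeval f (X ^ k : ℝ[X]) = aeval f ((X ^ k) * (u * X ^ (k + 1) + v * q)) := by
        rw [huv, mul_one]
      have h4 : (X ^ k) * (u * X ^ (k + 1) + v * q) = X ^ k * (u * X ^ (k + 1))
          + v * minpoly ℝ f := by
        rw [hq]; ring
      rw [h4, map_add, map_mul (aeval f) (X ^ k), he0, map_mul, minpoly.aeval, mul_zero, mul_zero,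
        add_zero, map_pow, aeval_X] at h3
      exact h3

end idem

end Pool.Agent.J6H15.LH
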