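import Pool.Agent.K1H64.LH.Main
import Pool.Agent.J6H15.LH.Lin

/-!
Hermitian Lie algebras with an abelian ideal `b` that contains all brackets: the commutative
associative algebra on `b` modulo its largest complex subspace.
-/

set_option autoImplicit false
set_option linter.unusedSimpArgs false

open Module
open scoped ComplexConjugate InnerProductSpace

noncomputable section

namespace Pool.Agent.J6H15.LH

open Pool.Agent.K1H64.LH

variable {V : Type*} [NormedAddCommGroup V] [InnerProductSpace ℂ V]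
variable {br Dv : V →ₗ[ℝ] V →ₗ[ℝ] V}

/-- `b` is an abelian ideal containing all brackets -/
structure Met (br : V →ₗ[ℝ] V →ₗ[ℝ] V) (b : Submodule ℝ V) : Prop where
  mem : ∀ x y, br x y ∈ b
  ab : ∀ x ∈ b, ∀ y ∈ b, br x y = 0

/-- the largest complex subspace of `b` -/
def hh (b : Submodule ℝ V) : Submodule ℂ V where
  carrier := {v | v ∈ b ∧ Complex.I • v ∈ b}
  add_mem' := by
    rintro x y ⟨h1, h2⟩ ⟨h3, h4⟩
    exact ⟨b.add_mem h1 h3, by rw [smul_add]; exact b.add_mem h2 h4⟩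
  zero_mem' := ⟨b.zero_mem, by rw [smul_zero]; exact b.zero_mem⟩
  smul_mem' := by
    rintro z x ⟨h1, h2⟩
    refine ⟨?_, ?_⟩
    · rw [smul_split]
      exact b.add_mem (b.smul_mem _ h1) (b.smul_mem _ h2)
    · rw [smul_comm, smul_split, I_smul_I_smul]
      exact b.add_mem (b.smul_mem _ h2) (b.smul_mem _ (b.neg_mem h1))

lemma mem_hh {b : Submodule ℝ V} {v : V} : v ∈ hh b ↔ v ∈ b ∧ Complex.I • v ∈ b := Iff.rfl

section lemmas

variable {b : Submodule ℝ V}

lemma L_I (G : Geo br Dv) (M : Met br b) {y w : V} (hy : y ∈ b) (hw : w ∈ hh b) :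
    br (Complex.I • y) (Complex.I • w) = Complex.I • br (Complex.I • y) w := by
  have h1 := G.nij y w
  rw [M.ab y hy w hw.1, M.ab y hy _ hw.2, smul_zero, add_zero, zero_sub] at h1
  rw [← sub_eq_zero, ← neg_eq_zero, ← h1]
  abel

lemma L_hh (G : Geo br Dv) (M : Met br b) {y w : V} (hy : y ∈ b) (hw : w ∈ hh b) :
    br (Complex.I • y) w ∈ hh b := by
  refine mem_hh.mpr ⟨M.mem _ _, ?_⟩
  rw [← L_I G M hy hw]
  exact M.mem _ _

lemma L_symm (G : Geo br Dv) (M : Met br b) {y w : V} (hy : y ∈ b) (hw : w ∈ b) :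
    br (Complex.I • y) w - br (Complex.I • w) y ∈ hh b := by
  refine mem_hh.mpr ⟨b.sub_mem (M.mem _ _) (M.mem _ _), ?_⟩
  have h1 := G.nij y w
  rw [M.ab y hy w hw, G.br_skew (Complex.I • w) y] at h1
  have h2 : Complex.I • (br (Complex.I • y) w - br (Complex.I • w) y)
      = br (Complex.I • y) (Complex.I • w) := by
    rw [smul_sub, ← sub_eq_zero, ← h1, smul_neg]
    abel
  rw [h2]
  exact M.mem _ _

lemma L_comm (G : Geo br Dv) (M : Met br b) (y w : V) {v : V} (hv : v ∈ b) :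
    br y (br w v) = br w (br y v) := by
  rw [G.jac, M.ab _ (M.mem _ _) v hv, zero_add]

lemma L_zero (M : Met br b) {y w : V} (hy : y ∈ hh b) (hw : w ∈ b) :
    br (Complex.I • y) w = 0 := M.ab _ hy.2 _ hw

lemma L_mul (G : Geo br Dv) (M : Met br b) {y w v : V} (hy : y ∈ b) (hw : w ∈ b) (hv : v ∈ b) :
    br (Complex.I • br (Complex.I • y) w) v - br (Complex.I • y) (br (Complex.I • w) v)
      ∈ hh b := by
  have h1 := L_symm G M (M.mem (Complex.I • y) w) hv
  have h2 := L_comm G M (Complex.I • v) (Complex.I • y) hw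
  have h3 := L_hh G M hy (L_symm G M hv hw)
  rw [map_sub] at h3
  have h4 : br (Complex.I • br (Complex.I • y) w) v - br (Complex.I • y) (br (Complex.I • w) v)
      = (br (Complex.I • br (Complex.I • y) w) v - br (Complex.I • v) (br (Complex.I • y) w))
        + (br (Complex.I • y) (br (Complex.I • v) w) - br (Complex.I • y) (br (Complex.I • w) v))
        := by
    rw [h2]; abel
  rw [h4]
  exact (hh b).add_mem h1 h3

end lemmas

section quo

variable {b : Submodule ℝ V}

/-- `hh b` as a subspace of `b` -/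
def hb (b : Submodule ℝ V) : Submodule ℝ b := ((hh b).restrictScalars ℝ).comap b.subtype

lemma mem_hb {w : b} : w ∈ hb b ↔ (w : V) ∈ hh b := Iff.rfl

/-- the operator `w ↦ [J y, w]` on `b` -/
def Lb (M : Met br b) (y : V) : b →ₗ[ℝ] b :=
  (br (Complex.I • y)).restrict (fun _ _ => M.mem _ _)

lemma Lb_coe (M : Met br b) (y : V) (w : b) : (Lb M y w : V) = br (Complex.I • y) w := rfl

lemma Lb_hb (G : Geo br Dv) (M : Met br b) {y : V} (hy : y ∈ b) (w : b) (hw : w ∈ hb b) :
    Lb M y w ∈ hb b := by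
  rw [mem_hb, Lb_coe]
  exact L_hh G M hy (mem_hb.mp hw)

/-- the multiplication of the algebra `b / hh b` -/
def Lq (G : Geo br Dv) (M : Met br b) : b →ₗ[ℝ] ((b ⧸ hb b) →ₗ[ℝ] (b ⧸ hb b)) where
  toFun y := (hb b).mapQ (hb b) (Lb M y) (Lb_hb G M y.2)
  map_add' y y' := by
    refine Submodule.linearMap_qext _ (LinearMap.ext fun w => ?_)
    change (hb b).mkQ (Lb M (y + y' : V) w) = (hb b).mkQ (Lb M y w) + (hb b).mkQ (Lb M y' w)
    rw [← map_add]
    congr 1
    apply Subtype.ext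
    rw [Submodule.coe_add, Lb_coe, Lb_coe, Lb_coe, smul_add, map_add, LinearMap.add_apply]
  map_smul' r y := by
    refine Submodule.linearMap_qext _ (LinearMap.ext fun w => ?_)
    change (hb b).mkQ (Lb M (r • y : V) w) = r • (hb b).mkQ (Lb M y w)
    rw [← map_smul]
    congr 1
    apply Subtype.ext
    rw [Submodule.coe_smul, Lb_coe, Lb_coe, smul_comm, map_smul, LinearMap.smul_apply]

lemma Lq_mk (G : Geo br Dv) (M : Met br b) (y w : b) :
    Lq G M y ((hb b).mkQ w) = (hb b).mkQ (Lb M y w) := rfl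

lemma Lq_mul (G : Geo br Dv) (M : Met br b) (y w : b) :
    Lq G M (Lb M y w) = Lq G M y * Lq G M w := by
  refine Submodule.linearMap_qext _ (LinearMap.ext fun v => ?_)
  change Lq G M (Lb M y w) ((hb b).mkQ v) = Lq G M y (Lq G M w ((hb b).mkQ v))
  rw [Lq_mk, Lq_mk, Lq_mk, ← sub_eq_zero, ← map_sub]
  refine (Submodule.Quotient.mk_eq_zero (hb b)).mpr (mem_hb.mpr ?_)
  exact L_mul G M y.2 w.2 v.2

lemma Lq_poly (G : Geo br Dv) (M : Met br b) (y : b) (p : Polynomial ℝ) :
    ∃ w : b, Lq G M w = Polynomial.aeval (Lq G M y) p * Lq G M y := by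
  induction p using Polynomial.induction_on with
  | C a =>
    refine ⟨a • y, ?_⟩
    rw [map_smul, Polynomial.aeval_C, Algebra.algebraMap_eq_smul_one, smul_mul_assoc, one_mul]
  | add p q hp hq =>
    obtain ⟨w, hw⟩ := hp
    obtain ⟨w', hw'⟩ := hq
    exact ⟨w + w', by rw [map_add, hw, hw', map_add, add_mul]⟩
  | monomial n a hn =>
    obtain ⟨w, hw⟩ := hn
    refine ⟨Lb M y w, ?_⟩
    have h2 : Polynomial.aeval (Lq G M y) (Polynomial.C a * Polynomial.X ^ (n + 1))
        = Polynomial.aeval (Lq G M y) (Polynomial.C a * Polynomial.X ^ n) * Lq G M y := by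
      rw [pow_succ, ← mul_assoc, map_mul (Polynomial.aeval (Lq G M y)) (Polynomial.C a * _),
        Polynomial.aeval_X]
    rw [Lq_mul, hw, h2, ← mul_assoc]
    congr 1
    have h1 : Commute (Polynomial.aeval (Lq G M y) (Polynomial.X : Polynomial ℝ))
        (Polynomial.aeval (Lq G M y) (Polynomial.C a * Polynomial.X ^ n)) :=
      (Commute.all _ _).map (Polynomial.aeval (Lq G M y))
    rw [Polynomial.aeval_X] at h1
    exact h1

variable [FiniteDimensional ℂ V]

instance instFDR : FiniteDimensional ℝ V := FiniteDimensional.complexToReal V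

/-- the trace of `J ∘ ad y` -/
lemma trace_J (G : Geo br Dv) (M : Met br b) (JJ : V →ₗ[ℝ] V) (hJ : ∀ v, JJ v = Complex.I • v)
    (y : b) : LinearMap.trace ℝ V (JJ ∘ₗ br y) = - LinearMap.trace ℝ _ (Lq G M y) := by
  have h1 : LinearMap.trace ℝ V (JJ ∘ₗ br y) = LinearMap.trace ℝ V (br y ∘ₗ JJ) :=
    LinearMap.trace_comp_comm' _ _
  have h2 : ∀ x, (br y ∘ₗ JJ) x ∈ b := fun x => M.mem _ _
  have h3 : ∀ w ∈ hb b, ((br y ∘ₗ JJ).restrict (fun x _ => h2 x) : b →ₗ[ℝ] b) w ∈ hb b := by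
    intro w hw
    have h4 : ((br y ∘ₗ JJ).restrict (fun x _ => h2 x) : b →ₗ[ℝ] b) w = 0 := by
      apply Subtype.ext
      change br y (JJ w) = 0
      rw [hJ]
      exact M.ab _ y.2 _ hw.2
    rw [h4]
    exact (hb b).zero_mem
  rw [h1, ← LinearMap.trace_restrict_eq_of_forall_mem b (br y ∘ₗ JJ) h2, trace_quot (hb b) _ h3]
  have h5 : ((br y ∘ₗ JJ).restrict (fun x _ => h2 x) : b →ₗ[ℝ] b).restrict h3 = 0 := by
    ext w
    change br y (JJ (w : b)) = 0
    rw [hJ]
    exact M.ab _ y.2 _ w.2.2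
  have h6 : (hb b).mapQ (hb b) ((br y ∘ₗ JJ).restrict (fun x _ => h2 x) : b →ₗ[ℝ] b) h3
      = - Lq G M y := by
    refine Submodule.linearMap_qext _ (LinearMap.ext fun w => ?_)
    change (hb b).mkQ ((br y ∘ₗ JJ).restrict (fun x _ => h2 x) w) = - (Lq G M y ((hb b).mkQ w))
    rw [Lq_mk, ← sub_eq_zero, sub_neg_eq_add, ← map_add]
    refine (Submodule.Quotient.mk_eq_zero (hb b)).mpr (mem_hb.mpr ?_)
    have h7 : (((br y ∘ₗ JJ).restrict (fun x _ => h2 x) : b →ₗ[ℝ] b) w + Lb M y w : b)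
        = (br (Complex.I • (y : V)) w - br (Complex.I • (w : V)) y : V) := by
      change br y (JJ w) + br (Complex.I • (y : V)) w = _
      rw [hJ, G.br_skew (Complex.I • (w : V)) y]
      abel
    rw [h7]
    exact L_symm G M y.2 w.2
  rw [h5, h6, map_zero, zero_add, map_neg]

/-- unimodularity -/
lemma trace_hb (G : Geo br Dv) (M : Met br b) (htr : ∀ x, LinearMap.trace ℝ V (br x) = 0)
    (y : b) : LinearMap.trace ℝ (hb b) ((Lb M y).restrict (Lb_hb G M y.2))
      = - LinearMap.trace ℝ _ (Lq G M y) := by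
  have h1 := htr (Complex.I • (y : V))
  rw [← LinearMap.trace_restrict_eq_of_forall_mem b (br (Complex.I • (y : V)))
    (fun x => M.mem _ _)] at h1
  change LinearMap.trace ℝ b (Lb M y) = 0 at h1
  rw [trace_quot (hb b) _ (Lb_hb G M y.2)] at h1
  exact eq_neg_of_add_eq_zero_left h1

end quo

end Pool.Agent.J6H15.LH
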