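import Pool.Agent.J6H15.LH.Pos

/-!
The upper bound: the constant is nonpositive if `b + J b` is not everything, and negative if it is
everything and the algebra `b / hh b` contains a nonzero idempotent multiplication.
-/

set_option autoImplicit false
set_option linter.unusedSimpArgs false

open Module
open scoped ComplexConjugate InnerProductSpace

noncomputable section

namespace Pool.Agent.J6H15.LH

open Pool.Agent.K1H64.LH

variable {V : Type*} [NormedAddCommGroup V] [InnerProductSpace ℂ V]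
variable {br Dv : V →ₗ[ℝ] V →ₗ[ℝ] V} {b : Submodule ℝ V}

/-- the complex subspace `S + J S` -/
def cx (S : Submodule ℝ V) : Submodule ℂ V where
  carrier := {v | ∃ y ∈ S, ∃ y' ∈ S, v = y + Complex.I • y'}
  add_mem' := by
    rintro _ _ ⟨y, hy, y', hy', rfl⟩ ⟨w, hw, w', hw', rfl⟩
    exact ⟨y + w, S.add_mem hy hw, y' + w', S.add_mem hy' hw', by rw [smul_add]; abel⟩
  zero_mem' := ⟨0, S.zero_mem, 0, S.zero_mem, by simp⟩
  smul_mem' := by
    rintro z _ ⟨y, hy, y', hy', rfl⟩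
    refine ⟨z.re • y - z.im • y', S.sub_mem (S.smul_mem _ hy) (S.smul_mem _ hy'),
      z.re • y' + z.im • y, S.add_mem (S.smul_mem _ hy') (S.smul_mem _ hy), ?_⟩
    rw [smul_split z, smul_add, smul_add, smul_add, smul_add, I_smul_I_smul, smul_neg,
      smul_comm Complex.I z.re y', smul_comm Complex.I z.im y]
    abel

lemma mem_cx {S : Submodule ℝ V} {v : V} :
    v ∈ cx S ↔ ∃ y ∈ S, ∃ y' ∈ S, v = y + Complex.I • y' := Iff.rfl

lemma le_cx {S : Submodule ℝ V} {v : V} (h : v ∈ S) : v ∈ cx S :=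
  ⟨v, h, 0, S.zero_mem, by simp⟩

variable [FiniteDimensional ℂ V]

lemma A_mem_cx (G : Geo br Dv) (M : Met br b) (x y : V) : adj G.P x y ∈ cx b := by
  rw [G.A_eq]
  refine (cx b).neg_mem ((cx b).smul_mem _ ((cx b).add_mem (le_cx (M.mem _ _))
    ((cx b).smul_mem _ (le_cx (M.mem _ _)))))

theorem nonpos_of (G : Geo br Dv) (M : Met br b) (hne : cx b ≠ ⊤) {a : ℝ}
    (hH : ∀ x, QQ G.P x x x x = (a : ℂ) * ((‖x‖ ^ 2 : ℝ) : ℂ) ^ 2) : a ≤ 0 := by
  have h1 : (cx b)ᗮ ≠ ⊥ := fun h => hne ((Submodule.orthogonal_eq_bot_iff).mp h)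
  obtain ⟨v, hv, hv0⟩ := Submodule.exists_mem_ne_zero_of_ne_bot h1
  have h2 : ∀ x, G.P x v = 0 := by
    intro x
    refine ext_inner_right ℂ fun w => ?_
    rw [← inner_adj_right, inner_zero_left]
    exact (Submodule.mem_orthogonal' _ _).mp hv _ (A_mem_cx G M x w)
  have h3 := hH v
  rw [QQ_eq, h2, h2, inner_self_sq] at h3
  simp only [inner_zero_left, inner_zero_right, sub_zero, add_zero] at h3
  have h4 : - ‖adj G.P v v‖ ^ 2 = a * (‖v‖ ^ 2) ^ 2 := by exact_mod_cast h3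
  have h5 : 0 < (‖v‖ ^ 2) ^ 2 := by
    have := norm_pos_iff.mpr hv0
    positivity
  by_contra h
  push Not at h
  have h6 := mul_pos h h5
  have h7 := sq_nonneg ‖adj G.P v v‖
  linarith

/-- the kernel of the multiplication by `ε` modulo `hh b`, as a subspace of `b` -/
def Kb (G : Geo br Dv) (M : Met br b) (ε : b) : Submodule ℝ V where
  carrier := {y | y ∈ b ∧ br (Complex.I • (ε : V)) y ∈ hh b}
  add_mem' := by
    rintro y y' ⟨h1, h2⟩ ⟨h3, h4⟩
    exact ⟨b.add_mem h1 h3, by rw [map_add]; exact (hh b).add_mem h2 h4⟩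
  zero_mem' := ⟨b.zero_mem, by rw [map_zero]; exact (hh b).zero_mem⟩
  smul_mem' := by
    rintro r y ⟨h1, h2⟩
    refine ⟨b.smul_mem _ h1, ?_⟩
    rw [map_smul, real_smul_eq]
    exact (hh b).smul_mem _ h2

lemma mem_Kb {G : Geo br Dv} {M : Met br b} {ε : b} {y : V} :
    y ∈ Kb G M ε ↔ y ∈ b ∧ br (Complex.I • (ε : V)) y ∈ hh b := Iff.rfl

lemma idem_mem (G : Geo br Dv) (M : Met br b) {ε : b} (he : Lq G M ε * Lq G M ε = Lq G M ε)
    {y : V} (hy : y ∈ b) : br (Complex.I • (ε : V)) y - y ∈ Kb G M ε := by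
  refine mem_Kb.mpr ⟨b.sub_mem (M.mem _ _) hy, ?_⟩
  have h1 := LinearMap.congr_fun he ((hb b).mkQ ⟨y, hy⟩)
  rw [Module.End.mul_apply, Lq_mk, Lq_mk, ← sub_eq_zero, ← map_sub] at h1
  have h2 := mem_hb.mp ((Submodule.Quotient.mk_eq_zero (hb b)).mp h1)
  rw [map_sub]
  exact h2

lemma L_Kb (G : Geo br Dv) (M : Met br b) {ε : b} {k v : V} (hk : k ∈ Kb G M ε) (hv : v ∈ b) :
    br (Complex.I • k) v ∈ Kb G M ε := by
  obtain ⟨hk1, hk2⟩ := mem_Kb.mp hk
  refine mem_Kb.mpr ⟨M.mem _ _, ?_⟩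
  rw [L_comm G M _ _ hv]
  have h1 := L_symm G M hk1 (M.mem (Complex.I • (ε : V)) v)
  have h2 := L_mul G M ε.2 hv hk1
  rw [L_comm G M (Complex.I • (ε : V)) (Complex.I • v) hk1] at h2
  have h3 := L_hh G M hv hk2
  have h4 : br (Complex.I • k) (br (Complex.I • (ε : V)) v)
      = (br (Complex.I • k) (br (Complex.I • (ε : V)) v)
          - br (Complex.I • br (Complex.I • (ε : V)) v) k)
        + (br (Complex.I • br (Complex.I • (ε : V)) v) k
          - br (Complex.I • v) (br (Complex.I • (ε : V)) k))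
        + br (Complex.I • v) (br (Complex.I • (ε : V)) k) := by abel
  rw [h4]
  exact (hh b).add_mem ((hh b).add_mem h1 h2) h3

lemma A_eps (G : Geo br Dv) (M : Met br b) {ε : b} (he : Lq G M ε * Lq G M ε = Lq G M ε)
    (htop : cx b = ⊤) (v : V) :
    adj G.P (ε : V) v + (Complex.I / 2) • v ∈ cx (Kb G M ε) := by
  have hv : v ∈ cx b := by rw [htop]; trivial
  obtain ⟨y, hy, y', hy', rfl⟩ := hv
  have h1 : ∀ y ∈ b, adj G.P (ε : V) y + (Complex.I / 2) • y ∈ cx (Kb G M ε) := by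
    intro y hy
    have h2 : adj G.P (ε : V) y + (Complex.I / 2) • y
        = (-(Complex.I / 2)) • (br (Complex.I • (ε : V)) y - y) := by
      rw [A_bb G M ε.2 hy]
      module
    rw [h2]
    exact (cx _).smul_mem _ (le_cx (idem_mem G M he hy))
  have h3 : adj G.P (ε : V) (y + Complex.I • y') + (Complex.I / 2) • (y + Complex.I • y')
      = (adj G.P (ε : V) y + (Complex.I / 2) • y)
        + Complex.I • (adj G.P (ε : V) y' + (Complex.I / 2) • y') := by
    rw [map_add, map_smul]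
    module
  rw [h3]
  exact (cx _).add_mem (h1 y hy) ((cx _).smul_mem _ (h1 y' hy'))

lemma A_K (G : Geo br Dv) (M : Met br b) {ε : b} (htop : cx b = ⊤) {k : V}
    (hk : k ∈ cx (Kb G M ε)) (v : V) : adj G.P k v ∈ cx (Kb G M ε) := by
  have h1 : ∀ k ∈ Kb G M ε, ∀ v ∈ b, adj G.P k v ∈ cx (Kb G M ε) := by
    intro k hk v hv
    rw [A_bb G M (mem_Kb.mp hk).1 hv]
    exact (cx _).smul_mem _ (le_cx (L_Kb G M hk hv))
  have h2 : ∀ k ∈ Kb G M ε, ∀ v, adj G.P k v ∈ cx (Kb G M ε) := by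
    intro k hk v
    have hv : v ∈ cx b := by rw [htop]; trivial
    obtain ⟨y, hy, y', hy', rfl⟩ := hv
    rw [map_add, map_smul]
    exact (cx _).add_mem (h1 k hk y hy) ((cx _).smul_mem _ (h1 k hk y' hy'))
  obtain ⟨k1, hk1, k2, hk2, rfl⟩ := hk
  rw [adj_add, adj_smul, LinearMap.add_apply, LinearMap.smul_apply]
  exact (cx _).add_mem (h2 k1 hk1 v) ((cx _).smul_mem _ (h2 k2 hk2 v))

theorem neg_of (G : Geo br Dv) (M : Met br b) (htop : cx b = ⊤) {a : ℝ}
    (hH : ∀ x, QQ G.P x x x x = (a : ℂ) * ((‖x‖ ^ 2 : ℝ) : ℂ) ^ 2) (ε : b)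
    (he : Lq G M ε * Lq G M ε = Lq G M ε) (he0 : Lq G M ε ≠ 0) : a < 0 := by
  obtain ⟨k0, hk0, x, hx, hεx⟩ := (cx (Kb G M ε)).exists_add_mem_mem_orthogonal (ε : V)
  have hx1 : ∀ k ∈ cx (Kb G M ε), ⟪x, k⟫_ℂ = 0 := (Submodule.mem_orthogonal' _ _).mp hx
  have hx2 : ∀ k ∈ cx (Kb G M ε), ⟪k, x⟫_ℂ = 0 := (Submodule.mem_orthogonal _ _).mp hx
  have hA : ∀ w, adj G.P x w + (Complex.I / 2) • w ∈ cx (Kb G M ε) := by
    intro w
    have h1 : x = ε - k0 := by rw [hεx]; abel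
    have h2 : adj G.P x w + (Complex.I / 2) • w
        = (adj G.P (ε : V) w + (Complex.I / 2) • w) - adj G.P k0 w := by
      rw [h1, adj_sub, LinearMap.sub_apply]
      abel
    rw [h2]
    exact (cx _).sub_mem (A_eps G M he htop w) (A_K G M htop hk0 w)
  have hP : G.P x x = (Complex.I / 2) • x := by
    refine ext_inner_right ℂ fun w => ?_
    have h1 := hx1 _ (hA w)
    rw [inner_add_right, inner_smul_right] at h1
    rw [← inner_adj_right, inner_smul_left, map_div₀, Complex.conj_I, map_ofNat]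
    linear_combination h1
  set κ := adj G.P x x + (Complex.I / 2) • x with hκ
  have hκm : κ ∈ cx (Kb G M ε) := hA x
  have hAxx : adj G.P x x = κ - (Complex.I / 2) • x := by rw [hκ]; abel
  have hAA : adj G.P (adj G.P x x) x
      = (adj G.P κ x + (Complex.I / 2) • κ) + (1 / 4 : ℂ) • x := by
    have h1 : adj G.P (adj G.P x x) x = adj G.P κ x + (Complex.I / 2) • adj G.P x x := by
      nth_rewrite 1 [hAxx]
      rw [adj_sub, adj_smul, LinearMap.sub_apply, LinearMap.smul_apply, map_div₀, Complex.conj_I,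
        map_ofNat]
      module
    rw [h1, hAxx, smul_sub, smul_smul]
    have h2 : (Complex.I / 2 * (Complex.I / 2) : ℂ) = - (1 / 4) := by
      linear_combination (1 / 4 : ℂ) * Complex.I_sq
    rw [h2]
    module
  have hm : adj G.P κ x + (Complex.I / 2) • κ ∈ cx (Kb G M ε) :=
    (cx _).add_mem (A_K G M htop hκm x) ((cx _).smul_mem _ hκm)
  have h1 := hH x
  have e1 : ⟪adj G.P x x, adj G.P x x⟫_ℂ = ⟪κ, κ⟫_ℂ + (1 / 4 : ℂ) * ⟪x, x⟫_ℂ := by
    rw [hAxx, inner_sub_left, inner_sub_right, inner_sub_right, inner_smul_left, inner_smul_left,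
      inner_smul_right, inner_smul_right, hx1 κ hκm, hx2 κ hκm, map_div₀, Complex.conj_I,
      map_ofNat]
    linear_combination (-1 / 4 : ℂ) * ⟪x, x⟫_ℂ * Complex.I_sq
  have e2 : ⟪G.P x x, G.P x x⟫_ℂ = (1 / 4 : ℂ) * ⟪x, x⟫_ℂ := by
    rw [hP, inner_smul_left, inner_smul_right, map_div₀, Complex.conj_I, map_ofNat]
    linear_combination (-1 / 4 : ℂ) * ⟪x, x⟫_ℂ * Complex.I_sq
  have e3 : ⟪x, G.P (adj G.P x x) x⟫_ℂ = (1 / 4 : ℂ) * ⟪x, x⟫_ℂ := by
    rw [← inner_adj_left, hAA, inner_add_left, hx2 _ hm, inner_smul_left, map_div₀, map_one,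
      map_ofNat, zero_add]
  have e4 : ⟪G.P (adj G.P x x) x, x⟫_ℂ = (1 / 4 : ℂ) * ⟪x, x⟫_ℂ := by
    rw [← inner_adj_right, hAA, inner_add_right, hx1 _ hm, inner_smul_right]
    simp
  rw [QQ_eq, e1, e2, e3, e4, inner_self_sq, inner_self_sq] at h1
  have h2 : - ‖κ‖ ^ 2 - 1 / 2 * ‖x‖ ^ 2 = a * (‖x‖ ^ 2) ^ 2 := by
    have h3 : ((- ‖κ‖ ^ 2 - 1 / 2 * ‖x‖ ^ 2 : ℝ) : ℂ) = ((a * (‖x‖ ^ 2) ^ 2 : ℝ) : ℂ) := by
      push_cast at h1 ⊢
      linear_combination h1
    exact_mod_cast h3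
  have hx0 : x ≠ 0 := by
    rintro rfl
    rw [add_zero] at hεx
    rw [← hεx] at hk0
    obtain ⟨y, hy, y', hy', hyy⟩ := hk0
    have hy'1 : Complex.I • y' ∈ b := by
      have : Complex.I • y' = (ε : V) - y := by rw [hyy]; abel
      rw [this]
      exact b.sub_mem ε.2 (mem_Kb.mp hy).1
    have hy'2 : Complex.I • y' ∈ hh b := by
      refine mem_hh.mpr ⟨hy'1, ?_⟩
      rw [I_smul_I_smul]
      exact b.neg_mem (mem_Kb.mp hy').1
    have h3 : br (Complex.I • (ε : V)) ε ∈ hh b := by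
      nth_rewrite 2 [hyy]
      rw [map_add]
      exact (hh b).add_mem (mem_Kb.mp hy).2 (L_hh G M ε.2 hy'2)
    apply he0
    have h4 : Lq G M (Lb M ε ε) = 0 := by
      refine Submodule.linearMap_qext _ (LinearMap.ext fun v => ?_)
      change Lq G M (Lb M ε ε) ((hb b).mkQ v) = 0
      rw [Lq_mk]
      refine (Submodule.Quotient.mk_eq_zero (hb b)).mpr ?_
      have : Lb M (Lb M ε ε : b) v = 0 := by
        apply Subtype.ext
        exact L_zero M h3 v.2
      rw [this]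
      exact (hb b).zero_mem
    rw [← he, ← Lq_mul, h4]
  have h5 : 0 < ‖x‖ := norm_pos_iff.mpr hx0
  have h6 : 0 < (‖x‖ ^ 2) ^ 2 := by positivity
  have h7 : a * (‖x‖ ^ 2) ^ 2 < 0 := by
    have := sq_nonneg ‖κ‖
    have : 0 < ‖x‖ ^ 2 := by positivity
    linarith
  by_contra h
  push Not at h
  have := mul_nonneg h h6.le
  linarith

/-- under constant holomorphic sectional curvature all multiplications have trace zero -/
theorem trace_zero (G : Geo br Dv) (M : Met br b) (htr : ∀ x, LinearMap.trace ℝ V (br x) = 0)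
    {a : ℝ} (hH : ∀ x, QQ G.P x x x x = (a : ℂ) * ((‖x‖ ^ 2 : ℝ) : ℂ) ^ 2) (y : b) :
    LinearMap.trace ℝ _ (Lq G M y) = 0 := by
  by_contra hne
  obtain ⟨p, hp1, hp2⟩ := exists_idem (Lq G M y) hne
  obtain ⟨ε, hε⟩ := Lq_poly G M y p
  rw [← hε] at hp1 hp2
  have h0 : Lq G M ε ≠ 0 := by
    intro h
    rw [h, map_zero] at hp2
    exact lt_irrefl _ hp2
  have hpos : 0 < a := by
    refine pos_of G M htr hH ε ?_
    rw [Lq_mul, hp1]
    exact hp2
  by_cases htop : cx b = ⊤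
  · exact absurd (neg_of G M htop hH ε hp1 h0) (not_lt.mpr hpos.le)
  · exact absurd (nonpos_of G M htop hH) (not_le.mpr hpos)

end Pool.Agent.J6H15.LH
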