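import Pool.Agent.J6H15.LH.Plane

/-!
Nilpotent Lie groups: Q2 without any condition on the complex structure.
-/

set_option autoImplicit false

open Module TensorProduct

noncomputable section

namespace Pool.Agent.J6H15.LH

open Pool.Agent.K1H64.LH

universe u

variable {g : Type u} [LieRing g] [LieAlgebra ℝ g] [FiniteDimensional ℝ g]

omit [FiniteDimensional ℝ g] in
/-- nilpotent Lie algebras are of type (I) -/
theorem typeI_of_nilpotent (hn : LieRing.IsNilpotent g) : TypeI g := by
  refine ⟨inferInstance, fun x z hz => ?_⟩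
  obtain ⟨n, hn'⟩ : IsNilpotent (LieAlgebra.ad ℝ g x) := LieModule.isNilpotent_toEnd_of_isNilpotent ℝ g g x
  obtain ⟨v, hv⟩ := hz.exists_hasEigenvector
  have h1 : ∀ m : ℕ, (((LieAlgebra.ad ℝ g x).baseChange ℂ) ^ m) v = z ^ m • v := by
    intro m
    induction m with
    | zero => simp
    | succ m ih => rw [pow_succ', Module.End.mul_apply, ih, map_smul, hv.apply_eq_smul, smul_smul, pow_succ]
  have h2 := h1 n
  rw [← LinearMap.baseChange_pow, hn', LinearMap.baseChange_zero, LinearMap.zero_apply] at h2
  have h3 : z ^ n = 0 := (smul_eq_zero.mp h2.symm).resolve_right hv.2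
  rw [eq_zero_of_pow_eq_zero h3, Complex.zero_re]

omit [FiniteDimensional ℝ g] in
/-- a flat left invariant metric on a nilpotent Lie group: the group is abelian -/
theorem abelian_of_flat {J : g →ₗ[ℝ] g} {B : g →ₗ[ℝ] g →ₗ[ℝ] ℝ} (H : LieHermitian J B)
    (hn : LieRing.IsNilpotent g) {D : g →ₗ[ℝ] g →ₗ[ℝ] g} (hD : IsLeviCivita B D) (hF : Flat D) :
    IsLieAbelian g := by
  classical
  -- central elements are orthogonal to all brackets
  have hcen : ∀ u : g, (∀ x : g, ⁅x, u⁆ = 0) → ∀ x y : g, B u ⁅x, y⁆ = 0 := by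
    intro u hu x y
    have hu' : ∀ x : g, ⁅u, x⁆ = 0 := fun x => by rw [← lie_skew, hu, neg_zero]
    have htor : ∀ x y : g, D x y - D y x = ⁅x, y⁆ := fun x y => sub_eq_zero.mp (hD.torsion x y)
    have hcomm : ∀ v, D u v = D v u := by
      intro v
      have := htor u v
      rw [hu', sub_eq_zero] at this
      exact this
    have hz : ∀ v, B (D v u) u = 0 := by
      intro v
      have := hD.metric v u u
      rw [H.symm u (D v u)] at this
      linarith
    have hDuu : D u u = 0 := by
      by_contra hne
      have h1 := H.pos _ hne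
      have h2 := hD.metric u u (D u u)
      rw [hcomm (D u u), H.symm u, hz, add_zero] at h2
      linarith
    have hDv : ∀ v, D v u = 0 := by
      intro v
      by_contra hne
      have h1 := H.pos _ hne
      have h2 := hF u v v
      have h3 : D u (D v v) - D v (D u v) - D ⁅u, v⁆ v = 0 := h2
      rw [hu', map_zero, LinearMap.zero_apply, sub_zero] at h3
      have h4 := congrArg (fun w => B w u) h3
      simp only [map_sub, LinearMap.sub_apply, map_zero, LinearMap.zero_apply] at h4
      have h5 := hD.metric u (D v v) u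
      rw [hDuu, map_zero, add_zero] at h5
      have h6 := hD.metric v (D u v) u
      rw [hcomm v] at h6 h4
      linarith
    have h1 := htor x y
    rw [← h1, map_sub]
    have h2 := hD.metric x u y
    have h3 := hD.metric y u x
    rw [hDv, map_zero, LinearMap.zero_apply, zero_add] at h2 h3
    rw [h2, h3, sub_zero]
  -- the last nonzero term of the lower central series
  obtain ⟨k, hk⟩ : ∃ k, LieModule.lowerCentralSeries ℝ g g k = ⊥ :=
    (LieModule.isNilpotent_iff ℝ g g).mp hn
  have hex : ∃ k, LieModule.lowerCentralSeries ℝ g g k = ⊥ := ⟨k, hk⟩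
  obtain ⟨m, hm⟩ : ∃ m, m = Nat.find hex := ⟨_, rfl⟩
  have hm1 : LieModule.lowerCentralSeries ℝ g g m = ⊥ := hm ▸ Nat.find_spec hex
  have hm2 : ∀ j, j < m → LieModule.lowerCentralSeries ℝ g g j ≠ ⊥ := fun j hj =>
    Nat.find_min hex (hm ▸ hj)
  have h1 : LieModule.lowerCentralSeries ℝ g g 1 = ⊥ := by
    by_contra hne
    have hm3 : 2 ≤ m := by
      by_contra hlt
      push Not at hlt
      apply hne
      refine eq_bot_iff.mpr ?_
      rw [← hm1]
      exact LieModule.antitone_lowerCentralSeries ℝ g g (by omega)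
    obtain ⟨j, rfl⟩ : ∃ j, m = j + 1 := ⟨m - 1, by omega⟩
    have hj := hm2 j (Nat.lt_succ_self j)
    obtain ⟨u, huj, hu0⟩ : ∃ u ∈ LieModule.lowerCentralSeries ℝ g g j, u ≠ 0 := by
      by_contra hcon
      push Not at hcon
      exact hj ((LieSubmodule.eq_bot_iff _).mpr hcon)
    have hu1 : u ∈ LieModule.lowerCentralSeries ℝ g g 1 :=
      LieModule.antitone_lowerCentralSeries ℝ g g (by omega : 1 ≤ j) huj
    have hu2 : ∀ x : g, ⁅x, u⁆ = 0 := by
      intro x
      have h2 : ⁅x, u⁆ ∈ LieModule.lowerCentralSeries ℝ g g (j + 1) := by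
        rw [LieModule.lowerCentralSeries_succ]
        exact LieSubmodule.lie_mem_lie (LieSubmodule.mem_top _) huj
      rw [hm1] at h2
      exact (LieSubmodule.mem_bot _).mp h2
    have h3 : ∀ v ∈ LieModule.lowerCentralSeries ℝ g g 1, B u v = 0 := by
      intro v hv
      rw [LieModule.lowerCentralSeries_succ, LieModule.lowerCentralSeries_zero,
        ← LieSubmodule.mem_toSubmodule, LieSubmodule.lieIdeal_oper_eq_linear_span'] at hv
      induction hv using Submodule.span_induction with
      | mem w hw =>
        obtain ⟨a, -, b, -, rfl⟩ := hw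
        exact hcen u hu2 a b
      | zero => exact map_zero _
      | add a b _ _ ha hb => rw [map_add, ha, hb, add_zero]
      | smul t a _ ha => rw [map_smul, ha, smul_zero]
    have h4 := H.pos u hu0
    rw [h3 u hu1] at h4
    exact lt_irrefl _ h4
  refine ⟨fun x y => ?_⟩
  have h2 : ⁅x, y⁆ ∈ LieModule.lowerCentralSeries ℝ g g 1 := by
    rw [LieModule.lowerCentralSeries_succ, LieModule.lowerCentralSeries_zero]
    exact LieSubmodule.lie_mem_lie (LieSubmodule.mem_top _) (LieSubmodule.mem_top _)
  rw [h1] at h2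
  exact (LieSubmodule.mem_bot _).mp h2

end Pool.Agent.J6H15.LH
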