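import Pool.Agent.J6H15.LH.Geod

/-!
Lie's theorem for real solvable Lie algebras of type (I): a common eigenvector with imaginary
weight, its real and imaginary parts, and a geodesic vector.
-/

set_option autoImplicit false

open Module TensorProduct
open scoped ComplexConjugate

noncomputable section

namespace Pool.Agent.J6H15.LH

open Pool.Agent.K1H64.LH

universe u

section cplx

variable {g : Type u} [LieRing g] [LieAlgebra ℝ g]

/-- the real part -/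
def tRe (g : Type u) [LieRing g] [LieAlgebra ℝ g] : ℂ ⊗[ℝ] g →ₗ[ℝ] g :=
  TensorProduct.lift (LinearMap.mk₂ ℝ (fun (z : ℂ) (x : g) => z.re • x)
    (fun z w x => by rw [Complex.add_re, add_smul])
    (fun r z x => by rw [Complex.real_smul, Complex.re_ofReal_mul, mul_smul])
    (fun z x y => smul_add _ _ _) (fun r z x => smul_comm _ _ _))

/-- the imaginary part -/
def tIm (g : Type u) [LieRing g] [LieAlgebra ℝ g] : ℂ ⊗[ℝ] g →ₗ[ℝ] g :=
  TensorProduct.lift (LinearMap.mk₂ ℝ (fun (z : ℂ) (x : g) => z.im • x)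
    (fun z w x => by rw [Complex.add_im, add_smul])
    (fun r z x => by rw [Complex.real_smul, Complex.im_ofReal_mul, mul_smul])
    (fun z x y => smul_add _ _ _) (fun r z x => smul_comm _ _ _))

lemma tRe_tmul (z : ℂ) (x : g) : tRe g (z ⊗ₜ[ℝ] x) = z.re • x := rfl

lemma tIm_tmul (z : ℂ) (x : g) : tIm g (z ⊗ₜ[ℝ] x) = z.im • x := rfl

lemma t_eq_zero {v : ℂ ⊗[ℝ] g} (h1 : tRe g v = 0) (h2 : tIm g v = 0) : v = 0 := by
  have key : ∀ v : ℂ ⊗[ℝ] g, (1 : ℂ) ⊗ₜ[ℝ] tRe g v + Complex.I ⊗ₜ[ℝ] tIm g v = v := by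
    intro v
    induction v using TensorProduct.induction_on with
    | zero => simp
    | tmul z x =>
      rw [tRe_tmul, tIm_tmul, tmul_smul, tmul_smul, TensorProduct.smul_tmul', TensorProduct.smul_tmul',
        ← TensorProduct.add_tmul]
      congr 1
      apply Complex.ext <;> simp
    | add a b ha hb =>
      rw [map_add, map_add, tmul_add, tmul_add]
      nth_rw 3 [← ha]
      nth_rw 3 [← hb]
      abel
  rw [← key v, h1, h2, tmul_zero, tmul_zero, add_zero]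

lemma tRe_smul (z : ℂ) (v : ℂ ⊗[ℝ] g) : tRe g (z • v) = z.re • tRe g v - z.im • tIm g v := by
  induction v using TensorProduct.induction_on with
  | zero => simp
  | tmul w x =>
    rw [TensorProduct.smul_tmul', tRe_tmul, tRe_tmul, tIm_tmul, smul_smul, smul_smul, ← sub_smul,
      smul_eq_mul, Complex.mul_re]
  | add a b ha hb =>
    rw [smul_add, map_add, map_add, map_add, ha, hb]
    module

lemma tIm_smul (z : ℂ) (v : ℂ ⊗[ℝ] g) : tIm g (z • v) = z.re • tIm g v + z.im • tRe g v := by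
  induction v using TensorProduct.induction_on with
  | zero => simp
  | tmul w x =>
    rw [TensorProduct.smul_tmul', tRe_tmul, tIm_tmul, tIm_tmul, smul_smul, smul_smul, ← add_smul,
      smul_eq_mul, Complex.mul_im]
  | add a b ha hb =>
    rw [smul_add, map_add, map_add, map_add, ha, hb]
    module

lemma tRe_lie (y : g) (v : ℂ ⊗[ℝ] g) : tRe g ⁅(1 : ℂ) ⊗ₜ[ℝ] y, v⁆ = ⁅y, tRe g v⁆ := by
  induction v using TensorProduct.induction_on with
  | zero =>
    have h0 : ⁅(1 : ℂ) ⊗ₜ[ℝ] y, (0 : ℂ ⊗[ℝ] g)⁆ = 0 :=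
      lie_zero (L := ℂ ⊗[ℝ] g) (M := ℂ ⊗[ℝ] g) _
    rw [h0, map_zero, lie_zero]
  | tmul w x =>
    rw [LieAlgebra.ExtendScalars.bracket_tmul, one_mul, tRe_tmul, tRe_tmul, lie_smul]
  | add a b ha hb =>
    have h0 : ⁅(1 : ℂ) ⊗ₜ[ℝ] y, a + b⁆ = ⁅(1 : ℂ) ⊗ₜ[ℝ] y, a⁆ + ⁅(1 : ℂ) ⊗ₜ[ℝ] y, b⁆ :=
      lie_add (L := ℂ ⊗[ℝ] g) (M := ℂ ⊗[ℝ] g) _ _ _
    rw [h0, map_add, map_add, lie_add, ha, hb]

lemma tIm_lie (y : g) (v : ℂ ⊗[ℝ] g) : tIm g ⁅(1 : ℂ) ⊗ₜ[ℝ] y, v⁆ = ⁅y, tIm g v⁆ := by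
  induction v using TensorProduct.induction_on with
  | zero =>
    have h0 : ⁅(1 : ℂ) ⊗ₜ[ℝ] y, (0 : ℂ ⊗[ℝ] g)⁆ = 0 :=
      lie_zero (L := ℂ ⊗[ℝ] g) (M := ℂ ⊗[ℝ] g) _
    rw [h0, map_zero, lie_zero]
  | tmul w x =>
    rw [LieAlgebra.ExtendScalars.bracket_tmul, one_mul, tIm_tmul, tIm_tmul, lie_smul]
  | add a b ha hb =>
    have h0 : ⁅(1 : ℂ) ⊗ₜ[ℝ] y, a + b⁆ = ⁅(1 : ℂ) ⊗ₜ[ℝ] y, a⁆ + ⁅(1 : ℂ) ⊗ₜ[ℝ] y, b⁆ :=
      lie_add (L := ℂ ⊗[ℝ] g) (M := ℂ ⊗[ℝ] g) _ _ _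
    rw [h0, map_add, map_add, lie_add, ha, hb]

variable [FiniteDimensional ℝ g]

/-- an invariant line or plane on which `g` acts by rotations -/
theorem exists_plane [Nontrivial g] (hg : TypeI g) :
    ∃ (β : g →ₗ[ℝ] ℝ) (a b : g), (a ≠ 0 ∨ b ≠ 0) ∧ ∀ y, ⁅y, a⁆ = - (β y • b) ∧ ⁅y, b⁆ = β y • a := by
  obtain ⟨hs, he⟩ := hg
  have hnt : Nontrivial (ℂ ⊗[ℝ] g) := by
    obtain ⟨x, hx⟩ := exists_ne (0 : g)
    refine ⟨(1 : ℂ) ⊗ₜ[ℝ] x, 0, fun h => hx ?_⟩
    have := congrArg (tRe g) h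
    rw [tRe_tmul, Complex.one_re, one_smul, map_zero] at this
    exact this
  obtain ⟨χ, hχ⟩ := LieModule.exists_nontrivial_weightSpace_of_isSolvable ℂ (ℂ ⊗[ℝ] g) (ℂ ⊗[ℝ] g)
  obtain ⟨⟨v, hv⟩, hv0⟩ := exists_ne (0 : LieModule.weightSpace (ℂ ⊗[ℝ] g) χ)
  rw [LieModule.mem_weightSpace] at hv
  have hv1 : v ≠ 0 := fun hh => hv0 (Subtype.ext hh)
  have hre : ∀ y : g, (χ ((1 : ℂ) ⊗ₜ[ℝ] y)).re = 0 := by
    intro y
    apply he y
    have h3 : ((LieAlgebra.ad ℝ g y).baseChange ℂ) v = χ ((1 : ℂ) ⊗ₜ[ℝ] y) • v := by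
      rw [← hv]
      have := LieModule.toEnd_baseChange (R := ℝ) (A := ℂ) (L := g) (M := g) y
      change ((LieModule.toEnd ℝ g g y).baseChange ℂ) v = _
      rw [← this]
      rfl
    exact Module.End.hasEigenvalue_of_hasEigenvector ⟨Module.End.mem_eigenspace_iff.mpr h3, hv1⟩
  refine ⟨{ toFun := fun y => (χ ((1 : ℂ) ⊗ₜ[ℝ] y)).im
            map_add' := fun x y => by rw [tmul_add, map_add, Complex.add_im]
            map_smul' := fun r y => by
              have h1 : (1 : ℂ) ⊗ₜ[ℝ] (r • y) = (r : ℂ) • ((1 : ℂ) ⊗ₜ[ℝ] y) := by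
                rw [tmul_smul, TensorProduct.smul_tmul', TensorProduct.smul_tmul']
                simp
              rw [h1, map_smul, smul_eq_mul, Complex.im_ofReal_mul, RingHom.id_apply, smul_eq_mul] },
    tRe g v, tIm g v, ?_, fun y => ⟨?_, ?_⟩⟩
  · by_contra h
    push Not at h
    exact hv1 (t_eq_zero h.1 h.2)
  · rw [← tRe_lie, hv, tRe_smul, hre, zero_smul, zero_sub]
    rfl
  · rw [← tIm_lie, hv, tIm_smul, hre, zero_smul, zero_add]
    rfl

end cplx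

section geom

variable {g : Type u} [LieRing g] [LieAlgebra ℝ g] {J : g →ₗ[ℝ] g} {B : g →ₗ[ℝ] g →ₗ[ℝ] ℝ}

/-- the rotations are trivial on the image of the plane under `J` -/
lemma plane_J (H : LieHermitian J B) {β : g →ₗ[ℝ] ℝ} {a b : g}
    (h : ∀ y, ⁅y, a⁆ = - (β y • b) ∧ ⁅y, b⁆ = β y • a) (hβ : β ≠ 0) (hab : a ≠ 0 ∨ b ≠ 0) :
    β (J a) = 0 ∧ β (J b) = 0 := by
  obtain ⟨y0, hy0⟩ : ∃ y, β y ≠ 0 := by
    by_contra hcon
    push Not at hcon
    exact hβ (LinearMap.ext hcon)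
  have ha0 : a ≠ 0 := by
    rintro rfl
    have h1 := (h y0).1
    rw [lie_zero, eq_comm, neg_eq_zero, smul_eq_zero] at h1
    rcases h1 with h1 | h1
    · exact hy0 h1
    · rcases hab with h2 | h2
      · exact h2 rfl
      · exact h2 h1
  have hb0 : b ≠ 0 := by
    rintro rfl
    have h1 := (h y0).2
    rw [lie_zero, eq_comm, smul_eq_zero] at h1
    rcases h1 with h1 | h1
    · exact hy0 h1
    · exact ha0 h1
  have hbr : ∀ x y : g, β ⁅x, y⁆ = 0 := by
    intro x y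
    have h1 := (h ⁅x, y⁆).1
    rw [lie_lie, (h y).1, (h x).1, lie_neg, lie_neg, lie_smul, lie_smul, (h x).2, (h y).2, smul_smul,
      smul_smul, mul_comm (β y), sub_self, eq_comm, neg_eq_zero, smul_eq_zero] at h1
    exact h1.resolve_right hb0
  have h1 := H.integrable a b
  have e1 : ⁅a, b⁆ = 0 := by
    have h2 := (h a).1
    rw [lie_self, eq_comm, neg_eq_zero, smul_eq_zero] at h2
    rw [(h a).2, h2.resolve_right hb0, zero_smul]
  have e2 : ⁅a, J b⁆ = β (J b) • b := by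
    rw [← lie_skew, (h (J b)).1, neg_neg]
  rw [e1, (h (J a)).2, e2, zero_sub] at h1
  have h2 := congrArg β h1
  have h3 : β ⁅J a, J b⁆ = 0 := hbr _ _
  rw [map_add, map_add, map_neg, h3, map_smul, map_smul, map_smul, map_smul, map_zero,
    smul_eq_mul, smul_eq_mul] at h2
  have h4 : β (J a) ^ 2 + β (J b) ^ 2 = 0 := by linarith
  have h5 := sq_nonneg (β (J a))
  have h6 := sq_nonneg (β (J b))
  exact ⟨pow_eq_zero_iff two_ne_zero |>.mp (by linarith), pow_eq_zero_iff two_ne_zero |>.mp (by linarith)⟩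

/-- principal axes -/
lemma exists_rot (p q : ℝ) : ∃ c s : ℝ, (c ≠ 0 ∨ s ≠ 0) ∧ (c ^ 2 - s ^ 2) * p + 2 * c * s * q = 0 := by
  by_cases h0 : p = 0
  · exact ⟨1, 0, Or.inl one_ne_zero, by rw [h0]; ring⟩
  · obtain ⟨z, hz⟩ := IsAlgClosed.exists_pow_nat_eq (k := ℂ) ((q : ℂ) - p * Complex.I) (n := 2)
      two_pos
    have h1 := congrArg Complex.re hz
    have h2 := congrArg Complex.im hz
    rw [sq, Complex.mul_re] at h1
    rw [sq, Complex.mul_im] at h2
    simp at h1 h2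
    refine ⟨z.re, z.im, ?_, ?_⟩
    · by_contra hcon
      push Not at hcon
      rw [hcon.1, hcon.2] at h2
      apply h0
      linarith
    · have e1 : z.re ^ 2 - z.im ^ 2 = q := by linarith
      have e2 : 2 * z.re * z.im = - p := by linarith
      rw [e1, e2]
      ring

/-- a geodesic vector in the plane -/
theorem exists_geod (H : LieHermitian J B) {β : g →ₗ[ℝ] ℝ} {a b : g}
    (h : ∀ y, ⁅y, a⁆ = - (β y • b) ∧ ⁅y, b⁆ = β y • a) (hab : a ≠ 0 ∨ b ≠ 0) :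
    ∃ u : g, u ≠ 0 ∧ ⁅u, J u⁆ = 0 ∧ ∀ z, B u ⁅u, z⁆ = 0 := by
  have hJ : β = 0 ∨ β (J a) = 0 ∧ β (J b) = 0 := by
    by_cases hβ : β = 0
    · exact Or.inl hβ
    · exact Or.inr (plane_J H h hβ hab)
  obtain ⟨c, s, hcs, he⟩ := exists_rot (B a b) ((B b b - B a a) / 2)
  have hlin : ∀ (c s : ℝ) (z : g), ⁅c • a + s • b, z⁆ = β z • (c • b - s • a) := by
    intro c s z
    rw [← lie_skew, lie_add, lie_smul, lie_smul, (h z).1, (h z).2]
    module
  have hJJ : ∀ c s : ℝ, ⁅c • a + s • b, J (c • a + s • b)⁆ = 0 := by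
    intro c s
    rw [hlin, map_add, map_smul, map_smul, map_add, map_smul, map_smul]
    rcases hJ with h1 | ⟨h1, h2⟩
    · rw [h1]; simp
    · rw [h1, h2]; simp
  have hB : B (c • a + s • b) (c • b - s • a) = 0 := by
    have h1 : B (c • a + s • b) (c • b - s • a)
        = (c ^ 2 - s ^ 2) * B a b + 2 * c * s * ((B b b - B a a) / 2) := by
      simp only [map_add, map_sub, map_smul, LinearMap.add_apply, LinearMap.smul_apply, smul_eq_mul]
      rw [H.symm b a]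
      ring
    rw [h1, he]
  by_cases h0 : c • a + s • b = 0
  · -- then `c • b - s • a` is central
    have h1 : c • b - s • a ≠ 0 := by
      intro h1
      have h2 : (c ^ 2 + s ^ 2) • a = 0 := by
        have : (c ^ 2 + s ^ 2) • a = c • (c • a + s • b) - s • (c • b - s • a) := by module
        rw [this, h0, h1, smul_zero, smul_zero, sub_zero]
      have h3 : (c ^ 2 + s ^ 2) • b = 0 := by
        have : (c ^ 2 + s ^ 2) • b = s • (c • a + s • b) + c • (c • b - s • a) := by module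
        rw [this, h0, h1, smul_zero, smul_zero, add_zero]
      have h4 : c ^ 2 + s ^ 2 ≠ 0 := by
        rcases hcs with h4 | h4 <;> positivity
      rcases hab with h5 | h5
      · exact h5 ((smul_eq_zero.mp h2).resolve_left h4)
      · exact h5 ((smul_eq_zero.mp h3).resolve_left h4)
    have h2 : ∀ z : g, ⁅c • b - s • a, z⁆ = 0 := by
      intro z
      have h3 : c • b - s • a = (-s) • a + c • b := by module
      rw [h3, hlin]
      have h4 : (-s) • b - c • a = - (c • a + s • b) := by module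
      rw [h4, h0, neg_zero, smul_zero]
    exact ⟨_, h1, h2 _, fun z => by rw [h2, map_zero]⟩
  · refine ⟨_, h0, hJJ c s, fun z => ?_⟩
    rw [hlin, map_smul, hB, smul_zero]

variable [FiniteDimensional ℝ g]

/-- **Q2 for solvable Lie groups of type (I).** -/
theorem riem_typeI [Nontrivial g] (H : LieHermitian J B) (hu : Unimodular g) (hg : TypeI g)
    {D : g →ₗ[ℝ] g →ₗ[ℝ] g} (hD : IsLeviCivita B D) {c : ℝ} (hc : ConstantHSC J B D c) :
    c = 0 ∧ Flat D ∧ ∀ x y, D x (J y) = J (D x y) := by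
  obtain ⟨β, a, b, hab, h⟩ := exists_plane hg
  obtain ⟨u, hu0, huJ, hug⟩ := exists_geod H h hab
  exact riem_of_geod H hu (ric_of_typeI H hg (brk H).geo) hD hu0 huJ hug hc

end geom

end Pool.Agent.J6H15.LH
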