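import Pool.Agent.J6H15.LH.Met

/-!
The lower bound: if the algebra `b / hh b` has an element `ε` such that the trace of the
multiplication by `ε ^ 2` is positive, then constant holomorphic sectional curvature is positive.
-/

set_option autoImplicit false
set_option linter.unusedSimpArgs false

open Module
open scoped ComplexConjugate InnerProductSpace

noncomputable section

namespace Pool.Agent.J6H15.LH

open Pool.Agent.K1H64.LH

variable {V : Type*} [NormedAddCommGroup V] [InnerProductSpace ℂ V] [FiniteDimensional ℂ V]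
variable {br Dv : V →ₗ[ℝ] V →ₗ[ℝ] V} {b : Submodule ℝ V}

lemma A_bb (G : Geo br Dv) (M : Met br b) {x y : V} (hx : x ∈ b) (hy : y ∈ b) :
    adj G.P x y = (-(Complex.I / 2)) • br (Complex.I • x) y := by
  rw [G.A_eq, M.ab x hx y hy, zero_add, smul_smul, ← neg_smul]
  congr 1
  ring

lemma A_hb (G : Geo br Dv) (M : Met br b) {x y : V} (hx : x ∈ hh b) (hy : y ∈ b) :
    adj G.P x y = 0 := by
  rw [A_bb G M hx.1 hy, L_zero M hx hy, smul_zero]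

lemma A_hh (G : Geo br Dv) (M : Met br b) {x y : V} (hx : x ∈ b) (hy : y ∈ hh b) :
    adj G.P x y ∈ hh b := by
  rw [A_bb G M hx hy.1]
  exact (hh b).smul_mem _ (L_hh G M hx hy)

lemma KK_eq (G : Geo br Dv) (M : Met br b) {x E : V} (hx : x ∈ b) (hE : E ∈ hh b) :
    KK (QQ G.P) x E = ((‖G.P x E + G.P E x‖ ^ 2 : ℝ) : ℂ) - ((‖adj G.P x E‖ ^ 2 : ℝ) : ℂ)
      - ⟪E, G.P (adj G.P x x) E⟫_ℂ - ⟪G.P (adj G.P x x) E, E⟫_ℂ := by
  have h1 : adj G.P E E = 0 := A_hb G M hE hE.1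
  have h2 : adj G.P E x = 0 := A_hb G M hE hx
  have h3 : adj G.P (adj G.P x E) E = 0 := A_hb G M (A_hh G M hx hE) hE.1
  have h4 : ⟪G.P (adj G.P x E) x, E⟫_ℂ = 0 := by rw [← inner_adj_right, h3, inner_zero_right]
  have h5 : ⟪E, G.P (adj G.P x E) x⟫_ℂ = 0 := by rw [← inner_adj_left, h3, inner_zero_left]
  rw [← inner_self_sq, ← inner_self_sq, KK, QQ_eq, QQ_eq, QQ_eq, QQ_eq, h1, h2, h4, h5]
  simp only [map_zero, LinearMap.zero_apply, inner_zero_left, inner_zero_right, inner_add_left,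
    inner_add_right]
  ring

/-- the sum over an orthonormal basis of `hh b` -/
lemma sum_ge (G : Geo br Dv) (M : Met br b) {x : V} (hx : x ∈ b) {ι : Type*} [Fintype ι]
    (e : OrthonormalBasis ι ℂ (hh b)) :
    ∑ k, ‖adj G.P x (e k : V)‖ ^ 2 ≤ ∑ k, ‖G.P x (e k : V) + G.P (e k : V) x‖ ^ 2 := by
  have hon : Orthonormal ℂ (fun k => (e k : V)) := by
    have := e.orthonormal
    exact this.comp_linearIsometry (hh b).subtypeₗᵢ
  have h1 : ∀ k, ∑ j, ‖⟪(e j : V), G.P x (e k : V) + G.P (e k : V) x⟫_ℂ‖ ^ 2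
      ≤ ‖G.P x (e k : V) + G.P (e k : V) x‖ ^ 2 := fun k =>
    hon.sum_inner_products_le _ (s := Finset.univ)
  have h2 : ∀ j k, ⟪(e j : V), G.P x (e k : V) + G.P (e k : V) x⟫_ℂ
      = ⟪adj G.P x (e j : V), (e k : V)⟫_ℂ := by
    intro j k
    rw [inner_add_right, ← inner_adj_left, ← inner_adj_left _ (e k : V),
      A_hb G M (e k).2 (e j).2.1, inner_zero_left, add_zero]
  have h3 : ∀ v : hh b, ∑ k, ‖⟪(v : V), (e k : V)⟫_ℂ‖ ^ 2 = ‖(v : V)‖ ^ 2 := by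
    intro v
    have := e.sum_sq_norm_inner_left v
    exact this
  calc ∑ k, ‖adj G.P x (e k : V)‖ ^ 2
      = ∑ j, ∑ k, ‖⟪adj G.P x (e j : V), (e k : V)⟫_ℂ‖ ^ 2 := by
        refine Finset.sum_congr rfl fun j _ => ?_
        exact (h3 ⟨adj G.P x (e j : V), A_hh G M hx (e j).2⟩).symm
    _ = ∑ k, ∑ j, ‖⟪adj G.P x (e j : V), (e k : V)⟫_ℂ‖ ^ 2 := Finset.sum_comm
    _ ≤ _ := by
        refine Finset.sum_le_sum fun k _ => ?_
        refine le_trans (le_of_eq ?_) (h1 k)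
        exact Finset.sum_congr rfl fun j _ => by rw [h2]

/-- the operator `ad (J z)` on `hh b` -/
def Lh (G : Geo br Dv) (M : Met br b) {z : V} (hz : z ∈ b) : hh b →ₗ[ℝ] hh b where
  toFun w := ⟨br (Complex.I • z) w, L_hh G M hz w.2⟩
  map_add' w w' := by apply Subtype.ext; simp
  map_smul' r w := by apply Subtype.ext; simp

/-- the identification of `hb b` and `hh b` -/
def hbe (b : Submodule ℝ V) : hb b ≃ₗ[ℝ] hh b where
  toFun w := ⟨((w : b) : V), w.2⟩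
  invFun w := ⟨⟨w, w.2.1⟩, w.2⟩
  left_inv _ := rfl
  right_inv _ := rfl
  map_add' _ _ := rfl
  map_smul' _ _ := rfl

lemma trace_Lh (G : Geo br Dv) (M : Met br b) (z : b) {ι : Type*} [Fintype ι]
    (e : OrthonormalBasis ι ℂ (hh b)) :
    LinearMap.trace ℝ (hb b) ((Lb M z).restrict (Lb_hb G M z.2))
      = 2 * ∑ k, (⟪(e k : V), br (Complex.I • (z : V)) (e k)⟫_ℂ).re := by
  have h1 : (hbe b).conj ((Lb M z).restrict (Lb_hb G M z.2)) = Lh G M z.2 := by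
    ext w
    rfl
  rw [← LinearMap.trace_conj' _ (hbe b), h1, real_trace e, Finset.mul_sum]
  refine Finset.sum_congr rfl fun k _ => ?_
  have h2 : (⟪e k, Lh G M z.2 (e k)⟫_ℂ) = ⟪(e k : V), br (Complex.I • (z : V)) (e k)⟫_ℂ := rfl
  have h3 : (⟪e k, Lh G M z.2 (Complex.I • e k)⟫_ℂ)
      = Complex.I * ⟪(e k : V), br (Complex.I • (z : V)) (e k)⟫_ℂ := by
    change ⟪(e k : V), br (Complex.I • (z : V)) (Complex.I • (e k : V))⟫_ℂ = _
    rw [L_I G M z.2 (e k).2, inner_smul_right]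
  rw [h2, h3]
  simp
  ring

theorem pos_of (G : Geo br Dv) (M : Met br b) (htr : ∀ x, LinearMap.trace ℝ V (br x) = 0)
    {a : ℝ} (hH : ∀ x, QQ G.P x x x x = (a : ℂ) * ((‖x‖ ^ 2 : ℝ) : ℂ) ^ 2) (x : b)
    (hx : 0 < LinearMap.trace ℝ _ (Lq G M (Lb M x x))) : 0 < a := by
  set z : b := Lb M x x with hz
  set e := stdOrthonormalBasis ℂ (hh b) with he
  have h1 := trace_hb G M htr z
  rw [trace_Lh G M z e] at h1
  have hAxx : adj G.P (x : V) x = (-(Complex.I / 2)) • (z : V) := A_bb G M x.2 x.2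
  have h2 : ∀ k, ⟪G.P (adj G.P (x : V) x) (e k : V), (e k : V)⟫_ℂ
      = (1 / 4 : ℂ) * ⟪(e k : V), br (Complex.I • (z : V)) (e k)⟫_ℂ := by
    intro k
    rw [← inner_adj_right, hAxx, adj_smul, LinearMap.smul_apply, A_bb G M z.2 (e k).2.1,
      smul_smul, inner_smul_right]
    congr 1
    rw [map_neg, map_div₀, Complex.conj_I, map_ofNat]
    linear_combination (-1 / 4 : ℂ) * Complex.I_sq
  have h3 : ∀ k, (KK (QQ G.P) (x : V) (e k)).re = ‖G.P (x : V) (e k) + G.P (e k : V) x‖ ^ 2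
      - ‖adj G.P (x : V) (e k)‖ ^ 2
      - 1 / 2 * (⟪(e k : V), br (Complex.I • (z : V)) (e k)⟫_ℂ).re := by
    intro k
    rw [KK_eq G M x.2 (e k).2, ← inner_conj_symm (e k : V) (G.P _ _), h2]
    have h14 : (1 / 4 : ℂ) = ((1 / 4 : ℝ) : ℂ) := by push_cast; ring
    simp only [Complex.sub_re, Complex.ofReal_re, Complex.conj_re, h14, Complex.re_ofReal_mul]
    ring
  have h4 : ∀ k, (KK (QQ G.P) (x : V) (e k)).re
      = 2 * a * (‖(x : V)‖ ^ 2 + ‖⟪(x : V), (e k : V)⟫_ℂ‖ ^ 2) := by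
    intro k
    rw [(quart_QQ G.P).polar a hH]
    have h5 : ‖((e k : hh b) : V)‖ = 1 := e.norm_eq_one k
    have h6 : ⟪(x : V), (e k : V)⟫_ℂ * ⟪(e k : V), (x : V)⟫_ℂ
        = ((‖⟪(x : V), (e k : V)⟫_ℂ‖ ^ 2 : ℝ) : ℂ) := by
      rw [← inner_conj_symm (e k : V) (x : V), Complex.mul_conj, Complex.normSq_eq_norm_sq]
    rw [h5, h6]
    have h7 : 2 * (a : ℂ) * (((‖(x : V)‖ ^ 2 : ℝ) : ℂ) * ((1 ^ 2 : ℝ) : ℂ)
        + ((‖⟪(x : V), (e k : V)⟫_ℂ‖ ^ 2 : ℝ) : ℂ))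
        = ((2 * a * (‖(x : V)‖ ^ 2 + ‖⟪(x : V), (e k : V)⟫_ℂ‖ ^ 2) : ℝ) : ℂ) := by
      push_cast; ring
    rw [h7, Complex.ofReal_re]
  have h8 : ∑ k, 2 * a * (‖(x : V)‖ ^ 2 + ‖⟪(x : V), (e k : V)⟫_ℂ‖ ^ 2)
      = ∑ k, (‖G.P (x : V) (e k) + G.P (e k : V) x‖ ^ 2 - ‖adj G.P (x : V) (e k)‖ ^ 2
      - 1 / 2 * (⟪(e k : V), br (Complex.I • (z : V)) (e k)⟫_ℂ).re) :=
    Finset.sum_congr rfl fun k _ => by rw [← h4, h3]
  rw [← Finset.mul_sum, Finset.sum_sub_distrib, Finset.sum_sub_distrib, ← Finset.mul_sum] at h8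
  have h9 := sum_ge G M x.2 e
  have h10 : 0 < 2 * a * ∑ k, (‖(x : V)‖ ^ 2 + ‖⟪(x : V), (e k : V)⟫_ℂ‖ ^ 2) := by
    rw [h8]
    linarith
  have h11 : 0 ≤ ∑ k, (‖(x : V)‖ ^ 2 + ‖⟪(x : V), (e k : V)⟫_ℂ‖ ^ 2) :=
    Finset.sum_nonneg fun k _ => by positivity
  have h12 := pos_of_mul_pos_left h10 h11
  linarith

end Pool.Agent.J6H15.LH
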