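import Pool.Agent.J6H15.LH.Ideal

/-!
Constant Riemannian holomorphic sectional curvature on 2-step solvable Lie algebras.
-/

set_option autoImplicit false

open Module
open scoped ComplexConjugate InnerProductSpace

noncomputable section

namespace Pool.Agent.J6H15.LH

open Pool.Agent.K1H64.LH

universe u

variable {g : Type u} [LieRing g] [LieAlgebra ℝ g] {J : g →ₗ[ℝ] g} {B : g →ₗ[ℝ] g →ₗ[ℝ] ℝ}

/-- the ideal `N` is abelian and contains all brackets -/
structure AbI (N : LieIdeal ℝ g) : Prop where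
  mem : ∀ x y : g, ⁅x, y⁆ ∈ N
  ab : ∀ x ∈ N, ∀ y ∈ N, ⁅x, y⁆ = 0

lemma AbI.met (H : LieHermitian J B) {N : LieIdeal ℝ g} (A : AbI N) :
    Met (mbr H) (N.toSubmodule.map (phi H).toLinearMap) where
  mem v w := by
    obtain ⟨x, rfl⟩ := (phi H).surjective v
    obtain ⟨y, rfl⟩ := (phi H).surjective w
    rw [mbr_phi]
    exact Submodule.mem_map_of_mem (A.mem x y)
  ab v hv w hw := by
    obtain ⟨x, hx, rfl⟩ := hv
    obtain ⟨y, hy, rfl⟩ := hw
    change mbr H (phi H x) (phi H y) = 0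
    rw [mbr_phi, A.ab x hx y hy, map_zero]

variable [FiniteDimensional ℝ g]

/-- if the operators `ad (J x)` are nilpotent modulo the largest complex subspace of `N`, then the
Chern-Ricci form vanishes -/
lemma AbI.ric (H : LieHermitian J B) (hu : Unimodular g) {N : LieIdeal ℝ g} (A : AbI N)
    (hnil : ∀ x ∈ N, ∃ k : ℕ, ∀ w ∈ N, J (((LieAlgebra.ad ℝ g (J x)) ^ k) w) ∈ N) :
    RicV H (brk H).geo := by
  have M := A.met H
  have G := (brk H).geo
  let JJ : VV H →ₗ[ℝ] VV H :=
    { toFun := fun v => Complex.I • v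
      map_add' := fun v w => smul_add _ _ _
      map_smul' := fun r v => smul_comm _ _ _ }
  have hmem : ∀ k : ℕ, ∀ x w : g, w ∈ N → ((LieAlgebra.ad ℝ g x) ^ k) w ∈ N := by
    intro k x w hw
    induction k with
    | zero => simpa using hw
    | succ k ih =>
      rw [pow_succ', Module.End.mul_apply]
      exact lie_mem_right ℝ g N x _ ih
  have htrace : ∀ y : (N.toSubmodule.map (phi H).toLinearMap : Submodule ℝ (VV H)),
      LinearMap.trace ℝ _ (Lq G M y) = 0 := by
    rintro ⟨y, hy⟩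
    obtain ⟨x, hx, hxy⟩ := id hy
    obtain ⟨k, hk⟩ := hnil x hx
    refine (LinearMap.isNilpotent_trace_of_isNilpotent ⟨k, ?_⟩).eq_zero
    refine Submodule.linearMap_qext _ (LinearMap.ext fun w => ?_)
    have h1 : ∀ j : ℕ, ((Lq G M ⟨y, hy⟩) ^ j) ((hb _).mkQ w)
        = (hb _).mkQ (((Lb M y) ^ j) w) := by
      intro j
      induction j with
      | zero => rfl
      | succ j ih => rw [pow_succ', Module.End.mul_apply, ih, Lq_mk, pow_succ', Module.End.mul_apply]
    change ((Lq G M ⟨y, hy⟩) ^ k) ((hb _).mkQ w) = 0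
    rw [h1]
    refine (Submodule.Quotient.mk_eq_zero (hb _)).mpr (mem_hb.mpr ?_)
    obtain ⟨w, hw⟩ := w
    obtain ⟨z, hz, rfl⟩ := hw
    have h2 : ∀ j : ℕ, (((Lb M y) ^ j) ⟨phi H z, ⟨z, hz, rfl⟩⟩ : VV H)
        = phi H (((LieAlgebra.ad ℝ g (J x)) ^ j) z) := by
      intro j
      induction j with
      | zero => rfl
      | succ j ih =>
        rw [pow_succ', Module.End.mul_apply, Lb_coe, ih, pow_succ', Module.End.mul_apply, ← hxy]
        change mbr H (Complex.I • phi H x) _ = _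
        rw [I_phi, mbr_phi]
        rfl
    change ((((Lb M y) ^ k) ⟨phi H z, ⟨z, hz, rfl⟩⟩ : _) : VV H) ∈ hh _
    rw [h2, mem_hh, I_phi]
    exact ⟨Submodule.mem_map_of_mem (hmem k _ z hz), Submodule.mem_map_of_mem (hk z hz)⟩
  intro v w
  have h4 := trace_J G M JJ (fun _ => rfl) ⟨mbr H v w, M.mem v w⟩
  rw [htrace, neg_zero, G.trace_Jbr JJ (fun _ => rfl), G.uni (uni_phi H hu),
    Complex.sub_im, Complex.conj_im] at h4
  linarith

/-- unimodularity on the ideal -/
lemma AbI.trace (hu : Unimodular g) {N : LieIdeal ℝ g} (A : AbI N) (y : g) :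
    LinearMap.trace ℝ N (LieModule.toEnd ℝ g N y) = 0 := by
  have h1 := LinearMap.trace_restrict_eq_of_forall_mem N.toSubmodule (LieAlgebra.ad ℝ g y)
    (fun x => A.mem y x)
  rw [hu] at h1
  rw [← h1]
  rfl

/-- **The case of nilpotent operators `ad (J x)` on the ideal.** -/
theorem riem_two_nil [Nontrivial g] (H : LieHermitian J B) (hu : Unimodular g) {N : LieIdeal ℝ g}
    (A : AbI N) (hnil : ∀ x ∈ N, IsNilpotent (LieModule.toEnd ℝ g N (J x)))
    {D : g →ₗ[ℝ] g →ₗ[ℝ] g} (hD : IsLeviCivita B D) {c : ℝ} (hc : ConstantHSC J B D c) :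
    c = 0 ∧ Flat D ∧ ∀ x y, D x (J y) = J (D x y) := by
  have hric : RicV H (brk H).geo := by
    refine A.ric H hu fun x hx => ?_
    obtain ⟨k, hk⟩ := hnil x hx
    refine ⟨k, fun w hw => ?_⟩
    have h1 : ∀ j : ℕ, ((((LieModule.toEnd ℝ g N (J x)) ^ j) ⟨w, hw⟩ : N) : g)
        = ((LieAlgebra.ad ℝ g (J x)) ^ j) w := by
      intro j
      induction j with
      | zero => rfl
      | succ j ih =>
        rw [pow_succ', Module.End.mul_apply, pow_succ', Module.End.mul_apply, ← ih]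
        rfl
    rw [← h1, hk, LinearMap.zero_apply]
    simp
  by_cases hN : N = ⊥
  · obtain ⟨u, hu0⟩ := exists_ne (0 : g)
    have h0 : ∀ x y : g, ⁅x, y⁆ = 0 := by
      intro x y
      have := A.mem x y
      rw [hN] at this
      exact (LieSubmodule.mem_bot _).mp this
    exact riem_of_geod H hu hric hD hu0 (h0 _ _) (fun z => by rw [h0, map_zero]) hc
  · exact riem_ideal H hu hric N hN (fun x y z hz => A.ab _ (A.mem x y) z hz) (A.trace hu) hnil hD hc

end Pool.Agent.J6H15.LH
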