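import Pool.Agent.J6H15.LH.RTwo

/-!
Constant Riemannian holomorphic sectional curvature on 2-step solvable Lie algebras: the derived
algebra is totally real, or `g = g' + J g'`.
-/

set_option autoImplicit false

open Module

noncomputable section

namespace Pool.Agent.J6H15.LH

open Pool.Agent.K1H64.LH

universe u

variable {g : Type u} [LieRing g] [LieAlgebra ℝ g] {J : g →ₗ[ℝ] g} {B : g →ₗ[ℝ] g →ₗ[ℝ] ℝ}
variable {N : LieIdeal ℝ g}

lemma AbI.comm (A : AbI N) (y z : g) : Commute (LieModule.toEnd ℝ g N y) (LieModule.toEnd ℝ g N z) := by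
  refine LinearMap.ext fun w => Subtype.ext ?_
  have h1 := A.ab _ (A.mem y z) (w : g) w.2
  rw [lie_lie, sub_eq_zero] at h1
  exact h1

/-- the operators `ad (J x)` on `N` -/
def LN (N : LieIdeal ℝ g) (J : g →ₗ[ℝ] g) : N →ₗ[ℝ] Module.End ℝ N where
  toFun x := LieModule.toEnd ℝ g N (J x)
  map_add' x y := by
    change LieModule.toEnd ℝ g N (J ((x : g) + (y : g))) = _
    rw [map_add, map_add]
  map_smul' r x := by
    change LieModule.toEnd ℝ g N (J (r • (x : g))) = _
    rw [map_smul, map_smul]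
    rfl

lemma LN_coe (x w : N) : ((LN N J x w : N) : g) = ⁅J (x : g), (w : g)⁆ := rfl

lemma LN_mul (H : LieHermitian J B) (A : AbI N) (h0 : ∀ x ∈ N, J x ∈ N → x = 0) (x w : N) :
    LN N J (LN N J x w) = LN N J x * LN N J w := by
  have hsymm : ∀ x w : N, LN N J x w = LN N J w x := by
    intro x w
    apply Subtype.ext
    rw [LN_coe, LN_coe, ← sub_eq_zero]
    refine h0 _ (N.sub_mem (A.mem _ _) (A.mem _ _)) ?_
    have h1 := H.integrable (x : g) (w : g)
    rw [A.ab _ x.2 _ w.2, zero_sub] at h1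
    have h2 : J (⁅J (x : g), (w : g)⁆ - ⁅J (w : g), (x : g)⁆) = ⁅J (x : g), J (w : g)⁆ := by
      have h3 : ⁅(x : g), J (w : g)⁆ = - ⁅J (w : g), (x : g)⁆ := (lie_skew _ _).symm
      rw [h3, map_neg] at h1
      rw [map_sub, ← sub_eq_zero, ← h1]
      abel
    rw [h2]
    exact A.mem _ _
  refine LinearMap.ext fun v => ?_
  rw [hsymm, Module.End.mul_apply, hsymm w v]
  exact LinearMap.congr_fun (A.comm (J (v : g)) (J (x : g))) w

lemma LN_poly (H : LieHermitian J B) (A : AbI N) (h0 : ∀ x ∈ N, J x ∈ N → x = 0) (y : N)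
    (p : Polynomial ℝ) : ∃ w : N, LN N J w = Polynomial.aeval (LN N J y) p * LN N J y := by
  induction p using Polynomial.induction_on with
  | C a =>
    refine ⟨a • y, ?_⟩
    rw [map_smul, Polynomial.aeval_C, Algebra.algebraMap_eq_smul_one, smul_mul_assoc, one_mul]
  | add p q hp hq =>
    obtain ⟨w, hw⟩ := hp
    obtain ⟨w', hw'⟩ := hq
    exact ⟨w + w', by rw [map_add, hw, hw', map_add, add_mul]⟩
  | monomial n a hn =>
    obtain ⟨w, hw⟩ := hn
    refine ⟨LN N J y w, ?_⟩
    have h2 : Polynomial.aeval (LN N J y) (Polynomial.C a * Polynomial.X ^ (n + 1))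
        = Polynomial.aeval (LN N J y) (Polynomial.C a * Polynomial.X ^ n) * LN N J y := by
      rw [pow_succ, ← mul_assoc, map_mul (Polynomial.aeval (LN N J y)) (Polynomial.C a * _),
        Polynomial.aeval_X]
    rw [LN_mul H A h0, hw, h2, ← mul_assoc]
    congr 1
    have h1 : Commute (Polynomial.aeval (LN N J y) (Polynomial.X : Polynomial ℝ))
        (Polynomial.aeval (LN N J y) (Polynomial.C a * Polynomial.X ^ n)) :=
      (Commute.all _ _).map (Polynomial.aeval (LN N J y))
    rw [Polynomial.aeval_X] at h1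
    exact h1

variable [FiniteDimensional ℝ g]

/-- if `N` is totally real, then the operators `ad (J x)`, `x ∈ N`, are nilpotent on `N` -/
theorem nil_of_real (H : LieHermitian J B) (hu : Unimodular g) (A : AbI N)
    (h0 : ∀ x ∈ N, J x ∈ N → x = 0) : ∀ x ∈ N, IsNilpotent (LieModule.toEnd ℝ g N (J x)) := by
  intro x hx
  by_contra hn
  obtain ⟨p, hp1, hp2⟩ := exists_idem_nn _ hn
  obtain ⟨w, hw⟩ := LN_poly H A h0 ⟨x, hx⟩ p
  have h1 : LN N J ⟨x, hx⟩ = LieModule.toEnd ℝ g N (J x) := rfl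
  rw [h1] at hw
  rw [← hw] at hp1 hp2
  have h2 : LinearMap.trace ℝ N (LN N J w) = 0 := A.trace hu (J w)
  exact hp2 (LinearMap.IsIdempotentElem.eq_zero_of_trace_eq_zero hp1 h2)

/-- **The case `g = N + J N`.** -/
theorem riem_two_sum [Nontrivial g] (H : LieHermitian J B) (hu : Unimodular g)
    (A : AbI N) (hsum : ∀ y : g, ∃ x ∈ N, ∃ x' ∈ N, y = x + J x')
    (hnil : ∀ x ∈ N, ∃ k : ℕ, ∀ w ∈ N, J (((LieAlgebra.ad ℝ g (J x)) ^ k) w) ∈ N)
    {D : g →ₗ[ℝ] g →ₗ[ℝ] g} (hD : IsLeviCivita B D) {c : ℝ} (hc : ConstantHSC J B D c) :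
    c = 0 ∧ Flat D ∧ ∀ x y, D x (J y) = J (D x y) := by
  -- the largest complex subspace of `N` is an ideal
  have hJ : ∀ x ∈ N, ∀ v ∈ N, J v ∈ N → J ⁅J x, v⁆ ∈ N := by
    intro x hx v hv hJv
    have h1 := H.integrable x v
    rw [A.ab x hx v hv, A.ab x hx _ hJv, map_zero, add_zero, zero_sub] at h1
    have h2 : J ⁅J x, v⁆ = ⁅J x, J v⁆ := by
      rw [← sub_eq_zero, ← h1]; abel
    rw [h2]
    exact A.mem _ _
  let K : LieIdeal ℝ g :=
    { carrier := {v | v ∈ N ∧ J v ∈ N}
      add_mem' := by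
        rintro a b ⟨h1, h2⟩ ⟨h3, h4⟩
        exact ⟨N.add_mem h1 h3, by rw [map_add]; exact N.add_mem h2 h4⟩
      zero_mem' := ⟨N.zero_mem, by rw [map_zero]; exact N.zero_mem⟩
      smul_mem' := by
        rintro r a ⟨h1, h2⟩
        exact ⟨N.smul_mem r h1, by rw [map_smul]; exact N.smul_mem r h2⟩
      lie_mem := by
        rintro y v ⟨h1, h2⟩
        refine ⟨A.mem _ _, ?_⟩
        obtain ⟨x, hx, x', hx', rfl⟩ := hsum y
        rw [add_lie, A.ab x hx v h1, zero_add]
        exact hJ x' hx' v h1 h2 }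
  have hK : ∀ v, v ∈ K ↔ v ∈ N ∧ J v ∈ N := fun v => Iff.rfl
  by_cases hK0 : K = ⊥
  · refine riem_two_nil H hu A (nil_of_real H hu A fun x hx hx' => ?_) hD hc
    have h1 : x ∈ K := ⟨hx, hx'⟩
    rw [hK0] at h1
    exact (LieSubmodule.mem_bot _).mp h1
  · refine riem_ideal H hu (A.ric H hu hnil) K hK0 (fun x y z hz => A.ab _ (A.mem x y) z hz.1)
      ?_ ?_ hD hc
    · intro y
      obtain ⟨x, hx, x', hx', rfl⟩ := hsum y
      -- reduce to `J x'`
      have h1 : LieModule.toEnd ℝ g K (x + J x') = LieModule.toEnd ℝ g K (J x') := by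
        refine LinearMap.ext fun w => Subtype.ext ?_
        change ⁅x + J x', (w : g)⁆ = ⁅J x', (w : g)⁆
        rw [add_lie, A.ab x hx _ w.2.1, zero_add]
      rw [h1]
      have h2 := A.trace hu (J x')
      let W : Submodule ℝ N := K.toSubmodule.comap N.toSubmodule.subtype
      have hW : ∀ w : N, w ∈ W ↔ (w : g) ∈ K := fun w => Iff.rfl
      have hf : ∀ w ∈ W, LieModule.toEnd ℝ g N (J x') w ∈ W := by
        intro w hw
        exact K.lie_mem (x := J x') hw
      have h3 := trace_quot W (LieModule.toEnd ℝ g N (J x')) hf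
      have h4 : LinearMap.trace ℝ (N ⧸ W) (W.mapQ W (LieModule.toEnd ℝ g N (J x')) hf) = 0 := by
        obtain ⟨k, hk⟩ := hnil x' hx'
        refine (LinearMap.isNilpotent_trace_of_isNilpotent ⟨k, ?_⟩).eq_zero
        refine Submodule.linearMap_qext _ (LinearMap.ext fun w => ?_)
        have h5 : ∀ j : ℕ, ((W.mapQ W (LieModule.toEnd ℝ g N (J x')) hf) ^ j) (W.mkQ w)
            = W.mkQ (((LieModule.toEnd ℝ g N (J x')) ^ j) w) := by
          intro j
          induction j with
          | zero => rfl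
          | succ j ih =>
            rw [pow_succ', Module.End.mul_apply, ih, pow_succ', Module.End.mul_apply]
            rfl
        change ((W.mapQ W (LieModule.toEnd ℝ g N (J x')) hf) ^ k) (W.mkQ w) = 0
        rw [h5]
        refine (Submodule.Quotient.mk_eq_zero W).mpr ?_
        have h6 : ∀ j : ℕ, ((((LieModule.toEnd ℝ g N (J x')) ^ j) w : N) : g)
            = ((LieAlgebra.ad ℝ g (J x')) ^ j) (w : g) := by
          intro j
          induction j with
          | zero => rfl
          | succ j ih =>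
            rw [pow_succ', Module.End.mul_apply, pow_succ', Module.End.mul_apply, ← ih]
            rfl
        refine ⟨(((LieModule.toEnd ℝ g N (J x')) ^ k) w).2, ?_⟩
        change J ((((LieModule.toEnd ℝ g N (J x')) ^ k) w : N) : g) ∈ N
        rw [h6]
        exact hk w w.2
      rw [h2, h4, add_zero] at h3
      let e : W ≃ₗ[ℝ] K.toSubmodule := Submodule.comapSubtypeEquivOfLe (fun v hv => hv.1)
      have h5 := LinearMap.trace_conj' ((LieModule.toEnd ℝ g N (J x')).restrict hf) e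
      rw [← h3] at h5
      rw [← h5]
      rfl
    · intro x hx
      refine ⟨1, ?_⟩
      rw [pow_one]
      refine LinearMap.ext fun w => Subtype.ext ?_
      exact A.ab _ hx.2 _ w.2.1

end Pool.Agent.J6H15.LH
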